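import Pool.Agent.Lib.H80U.Pow
import Pool.Agent.Lib.CharExpP.Reduction
import Pool.Agent.Lib.CharExpP.Bounded

/-!
# Counting the letters of a tuple of maximal weight
-/

namespace Pool.Agent.Lib.H80U

open Subgroup
open scoped commutatorElement

universe u v

section

variable {G : Type u} [Group G] {A : Type v} [AddCommGroup A]

theorem Dl_eq_zero_of_mem {H : Subgroup G} (φ : G → A) (l : List G) (hφ : ∀ g ∈ H, φ g = 0)
    (hl : ∀ y ∈ l, y ∈ H) : Dl φ l = 0 := by
  induction l generalizing φ with
  | nil => exact hφ 1 (one_mem _)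
  | cons y ys ih =>
    rw [Dl_cons]
    apply ih
    · intro g hg
      have hy : y ∈ H := hl y List.mem_cons_self
      simp only [delta, hφ _ (mul_mem hy hg), hφ _ hg, sub_zero]
    · exact fun z hz => hl z (List.mem_cons_of_mem _ hz)

theorem Dl_congr_of_mem {H : Subgroup G} (φ ψ : G → A) (l : List G) (hφ : ∀ g ∈ H, φ g = ψ g)
    (hl : ∀ y ∈ l, y ∈ H) : Dl φ l = Dl ψ l := by
  have h := Dl_eq_zero_of_mem (H := H) (φ - ψ) l (fun g hg => by
    rw [Pi.sub_apply, hφ g hg, sub_self]) hl
  rw [Dl_sub] at h
  exact sub_eq_zero.mp h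

theorem Dl_map {K : Type u} [Group K] (i : K →* G) (φ : G → A) (l : List K) :
    Dl (fun k => φ (i k)) l = Dl φ (l.map i) := by
  induction l generalizing φ with
  | nil => simp
  | cons y ys ih =>
    rw [Dl_cons, List.map_cons, Dl_cons, ← ih]
    congr 1
    funext k
    simp [delta]

/-- Symmetry. -/
theorem Dl_swap {F : ℕ → Subgroup G} (hF : SFilt F) {f : G → A} {μ : ℕ} (hd : Deg F f μ)
    (P l : List (ℕ × G)) (hP : ∀ q ∈ P, q.2 ∈ F q.1) (hl : ∀ q ∈ l, q.2 ∈ F q.1) (a b : ℕ)
    (u w : G) (hu : u ∈ F a) (hw : w ∈ F b)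
    (hμ : μ ≤ (P.map Prod.fst).sum + a + b + (l.map Prod.fst).sum) :
    Dl f (P.map Prod.snd ++ u :: w :: l.map Prod.snd) =
      Dl f (P.map Prod.snd ++ w :: u :: l.map Prod.snd) := by
  set t := ⁅u⁻¹, w⁻¹⁆ with ht
  have htm : t ∈ F (a + b + 1) := hF.comm_mem (inv_mem hu) (inv_mem hw)
  have e : u * w = (w * u) * t := by
    rw [ht, commutatorElement_def]; group
  have h0 : w * u ∈ F 0 :=
    mul_mem (hF.anti_le (Nat.zero_le _) hw) (hF.anti_le (Nat.zero_le _) hu)
  have h1 := Dl_mul f (P.map Prod.snd) (l.map Prod.snd) u w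
  have h2 := Dl_mul f (P.map Prod.snd) (l.map Prod.snd) (w * u) t
  have h3 := Dl_mul f (P.map Prod.snd) (l.map Prod.snd) w u
  have z1 := hd (P ++ (a + b + 1, t) :: l) (by simp) (by
    intro q hq
    rw [List.mem_append, List.mem_cons] at hq
    rcases hq with hq | rfl | hq
    · exact hP q hq
    · exact htm
    · exact hl q hq) (by
    simp only [List.map_append, List.map_cons, List.sum_append, List.sum_cons]
    omega)
  have z2 := hd (P ++ (0, w * u) :: (a + b + 1, t) :: l) (by simp) (by
    intro q hq
    rw [List.mem_append, List.mem_cons, List.mem_cons] at hq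
    rcases hq with hq | rfl | rfl | hq
    · exact hP q hq
    · exact h0
    · exact htm
    · exact hl q hq) (by
    simp only [List.map_append, List.map_cons, List.sum_append, List.sum_cons]
    omega)
  simp only [List.map_append, List.map_cons] at z1 z2
  rw [e, h2, z1, z2, add_zero, add_zero, h3] at h1
  have h4 : Dl f (P.map Prod.snd ++ w :: List.map Prod.snd l) +
      Dl f (P.map Prod.snd ++ u :: List.map Prod.snd l) =
      Dl f (P.map Prod.snd ++ u :: List.map Prod.snd l) +
      Dl f (P.map Prod.snd ++ w :: List.map Prod.snd l) := add_comm _ _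
  rw [h4] at h1
  exact (add_left_cancel h1).symm

theorem Dl_perm {F : ℕ → Subgroup G} (hF : SFilt F) {f : G → A} {μ : ℕ} (hd : Deg F f μ)
    {L L' : List (ℕ × G)} (hp : L.Perm L') : ∀ P : List (ℕ × G), (∀ q ∈ P, q.2 ∈ F q.1) →
    (∀ q ∈ L, q.2 ∈ F q.1) → μ ≤ (P.map Prod.fst).sum + (L.map Prod.fst).sum →
    Dl f (P.map Prod.snd ++ L.map Prod.snd) = Dl f (P.map Prod.snd ++ L'.map Prod.snd) := by
  induction hp with
  | nil => intro P _ _ _; rfl
  | cons x _ ih =>
    intro P hP hL hμ
    have h := ih (P ++ [x]) (by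
      intro q hq
      rw [List.mem_append, List.mem_singleton] at hq
      rcases hq with hq | rfl
      · exact hP q hq
      · exact hL _ List.mem_cons_self) (fun q hq => hL q (List.mem_cons_of_mem _ hq)) (by
      simp only [List.map_append, List.map_cons, List.sum_append, List.sum_cons, List.map_nil,
        List.sum_nil] at hμ ⊢
      omega)
    simpa [List.map_append, List.append_assoc] using h
  | swap x y l =>
    intro P hP hL hμ
    simp only [List.map_cons, List.sum_cons] at hμ ⊢
    exact Dl_swap hF hd P l hP (fun q hq => hL q (List.mem_cons_of_mem _ (List.mem_cons_of_mem _ hq)))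
      y.1 x.1 y.2 x.2 (hL y List.mem_cons_self) (hL x (List.mem_cons_of_mem _ List.mem_cons_self))
      (by omega)
  | trans h1 _ ih1 ih2 =>
    intro P hP hL hμ
    rw [ih1 P hP hL hμ]
    apply ih2 P hP
    · intro q hq
      exact hL q (h1.mem_iff.mpr hq)
    · rw [← (h1.map Prod.fst).sum_eq]
      exact hμ

/-- Replacing the letters by letters of a generating set. -/
theorem replace {F : ℕ → Subgroup G} {f : G → A} {μ : ℕ} (hd : Deg F f μ)
    (S : Set G) (hS : ∀ v, 1 ≤ v → F v ≤ closure ((F v : Set G) ∩ S)) (L : List (ℕ × G)) :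
    ∀ P : List (ℕ × G), (∀ q ∈ P, q.2 ∈ F q.1) → (∀ q ∈ L, q.2 ∈ F q.1) → (∀ q ∈ L, 1 ≤ q.1) →
    μ ≤ (P.map Prod.fst).sum + (L.map Prod.fst).sum →
    Dl f (P.map Prod.snd ++ L.map Prod.snd) ≠ 0 →
    ∃ L' : List (ℕ × G), L'.map Prod.fst = L.map Prod.fst ∧ (∀ q ∈ L', q.2 ∈ F q.1 ∧ q.2 ∈ S) ∧
      Dl f (P.map Prod.snd ++ L'.map Prod.snd) ≠ 0 := by
  induction L with
  | nil => intro P _ _ _ _ h; exact ⟨[], rfl, by simp, h⟩
  | cons r l ih =>
    obtain ⟨v, y⟩ := r
    intro P hP hL h1 hμ hne
    have hy : y ∈ F v := hL (v, y) List.mem_cons_self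
    have hv : 1 ≤ v := h1 (v, y) List.mem_cons_self
    have hl' : ∀ q ∈ l, q.2 ∈ F q.1 := fun q hq => hL q (List.mem_cons_of_mem _ hq)
    simp only [List.map_cons, List.sum_cons] at hμ hne
    -- find a good letter
    obtain ⟨z, ⟨hzF, hzS⟩, hz⟩ : ∃ z ∈ (F v : Set G) ∩ S,
        Dl f (P.map Prod.snd ++ z :: l.map Prod.snd) ≠ 0 := by
      by_contra hcon
      push Not at hcon
      let h : F v →* Multiplicative A := MonoidHom.mk' (fun g => Multiplicative.ofAdd
        (Dl f (P.map Prod.snd ++ (g : G) :: l.map Prod.snd))) (by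
        intro a b
        rw [← ofAdd_add]
        congr 1
        exact letter_hom hd P l hP hl' v (by omega) a b a.2 b.2)
      have hk : F v ≤ h.ker.map (F v).subtype := by
        refine (hS v hv).trans ?_
        rw [closure_le]
        intro z hz
        refine ⟨⟨z, hz.1⟩, ?_, rfl⟩
        show h ⟨z, hz.1⟩ = 1
        show Multiplicative.ofAdd (Dl f (P.map Prod.snd ++ z :: l.map Prod.snd)) = 1
        rw [hcon z hz]; rfl
      obtain ⟨z, hz, rfl⟩ := hk hy
      apply hne
      exact hz
    obtain ⟨L', e1, e2, e3⟩ := ih (P ++ [(v, z)]) (by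
      intro q hq
      rw [List.mem_append, List.mem_singleton] at hq
      rcases hq with hq | rfl
      · exact hP q hq
      · exact hzF) hl' (fun q hq => h1 q (List.mem_cons_of_mem _ hq)) (by
      simp only [List.map_append, List.map_cons, List.sum_append, List.sum_cons, List.map_nil,
        List.sum_nil]
      omega) (by simpa [List.map_append, List.append_assoc] using hz)
    refine ⟨(v, z) :: L', by simp [e1], ?_, by simpa [List.map_append, List.append_assoc] using e3⟩
    intro q hq
    rcases List.mem_cons.mp hq with rfl | hq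
    · exact ⟨hzF, hzS⟩
    · exact e2 q hq

end

/-- The count for independent maximal subgroups. -/
theorem count_indep {p n : ℕ} [hp : Fact p.Prime] {G : Type} [Group G] {A : Type v}
    [AddCommGroup A] {F : ℕ → Subgroup G} {f : G → A} {μ : ℕ} (hd : Deg F f μ)
    (h1 : F 1 = ⊤) (H : Fin n → Subgroup G) (hN : ∀ i, (H i).Normal)
    (hi : ∀ i, (H i).index = p) (hI : Pool.CharExpP.Indep H) (hfH : ∀ i, ∀ g ∈ H i, f g = 0)
    (h2 : ∀ i v, 2 ≤ v → F v ≤ H i) (L : List (ℕ × G)) (hL : ∀ q ∈ L, q.2 ∈ F q.1)
    (hL1 : ∀ q ∈ L, 1 ≤ q.1) (hμ : μ ≤ (L.map Prod.fst).sum) (hD : Dl f (L.map Prod.snd) ≠ 0) :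
    n ≤ L.length := by
  rcases Nat.eq_zero_or_pos n with hn | hn
  · omega
  let S : Set G := {z | ∃ i, ∀ j, j ≠ i → z ∈ H j}
  have hS : ∀ v, 1 ≤ v → F v ≤ closure ((F v : Set G) ∩ S) := by
    intro v hv y hy
    rcases Nat.lt_or_ge v 2 with hv2 | hv2
    · have hv1 : v = 1 := by omega
      subst hv1
      obtain ⟨x, hx, rfl⟩ := Pool.CharExpP.exists_factorisation hp.out hn hN hi hI y
      apply list_prod_mem
      intro a ha
      rw [List.mem_ofFn] at ha
      obtain ⟨j, rfl⟩ := ha
      apply Subgroup.subset_closure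
      refine ⟨?_, j, fun k hk => hx j k (Ne.symm hk)⟩
      rw [h1]
      exact mem_top _
    · apply Subgroup.subset_closure
      exact ⟨hy, ⟨0, hn⟩, fun j _ => h2 j v hv2 hy⟩
  obtain ⟨L', e1, e2, e3⟩ := replace hd S hS L [] (by simp) hL hL1 (by simpa using hμ)
    (by simpa using hD)
  simp only [List.map_nil, List.nil_append] at e3
  have hlen : L'.length = L.length := by
    have := congrArg List.length e1
    simpa using this
  by_contra hlt
  push Not at hlt
  -- the used indices
  have : Nonempty (Fin n) := ⟨⟨0, hn⟩⟩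
  choose! idx hidx using (fun (q : ℕ × G) (hq : q ∈ L') => (e2 q hq).2)
  obtain ⟨i0, hi0⟩ : ∃ i0 : Fin n, i0 ∉ (L'.map idx).toFinset := by
    by_contra hc
    push Not at hc
    have h3 : (Finset.univ : Finset (Fin n)) ⊆ (L'.map idx).toFinset := fun i _ => hc i
    have h4 := Finset.card_le_card h3
    have h5 := List.toFinset_card_le (L'.map idx)
    rw [Finset.card_univ, Fintype.card_fin] at h4
    rw [List.length_map] at h5
    omega
  apply e3
  apply Dl_eq_zero_of_mem (H := H i0) f _ (hfH i0)
  intro y hy
  rw [List.mem_map] at hy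
  obtain ⟨q, hq, rfl⟩ := hy
  apply hidx q hq i0
  rintro rfl
  apply hi0
  rw [List.mem_toFinset, List.mem_map]
  exact ⟨q, hq, rfl⟩

/-! ## The cyclic coefficients -/

/-- The operator on functions on `ZMod p`. -/
def cT {p : ℕ} (c : ZMod p → ZMod p) : ZMod p → ZMod p := fun s => c (s + 1) - c s

/-- The coefficients. -/
def cco (p : ℕ) (b : ℕ) : ZMod p → ZMod p := (cT)^[b] (fun s => if s = 0 then 1 else 0)

theorem cco_succ (p b : ℕ) (s : ZMod p) : cco p (b + 1) s = cco p b (s + 1) - cco p b s := by
  unfold cco
  rw [Function.iterate_succ_apply']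
  rfl

theorem cco_zero_of {p : ℕ} [hp : Fact p.Prime] (b : ℕ) : ∀ s : ℕ, 1 ≤ s → s + b < p →
    cco p b (s : ZMod p) = 0 := by
  induction b with
  | zero =>
    intro s h1 h2
    show (if (s : ZMod p) = 0 then (1 : ZMod p) else 0) = 0
    rw [if_neg]
    intro h
    rw [ZMod.natCast_eq_zero_iff] at h
    exact absurd (Nat.le_of_dvd (by omega) h) (by omega)
  | succ b ih =>
    intro s h1 h2
    rw [cco_succ]
    have e : ((s : ZMod p) + 1) = ((s + 1 : ℕ) : ZMod p) := by push_cast; rfl
    rw [e, ih (s + 1) (by omega) (by omega), ih s h1 (by omega), sub_zero]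

theorem cco_at_zero {p : ℕ} [hp : Fact p.Prime] (b : ℕ) (hb : b < p) :
    cco p b 0 = (-1) ^ b := by
  induction b with
  | zero => simp [cco]
  | succ b ih =>
    rw [cco_succ, ih (by omega)]
    have e : ((0 : ZMod p) + 1) = ((1 : ℕ) : ZMod p) := by push_cast; ring
    rw [e, cco_zero_of b 1 le_rfl (by omega)]
    ring

theorem cco_ne {p : ℕ} [hp : Fact p.Prime] (b : ℕ) (hb : b < p) : cco p b 0 ≠ 0 := by
  rw [cco_at_zero b hb]
  exact pow_ne_zero _ (neg_ne_zero.mpr one_ne_zero)

theorem deltas_replicate {p : ℕ} {G : Type u} [Group G] {M : Subgroup G} {x : G}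
    (f : G → ZMod p) (b : ℕ) : ∀ (φ : G → ZMod p) (c : ZMod p → ZMod p),
    (∀ s : ℕ, ∀ g ∈ M, φ (x ^ s * g) = c s * f g) → ∀ s : ℕ, ∀ g ∈ M,
      deltas (List.replicate b x) φ (x ^ s * g) = ((cT)^[b] c) s * f g := by
  induction b with
  | zero => intro φ c h; exact h
  | succ b ih =>
    intro φ c h s g hg
    rw [List.replicate_succ]
    show deltas (List.replicate b x) (delta x φ) (x ^ s * g) = _
    rw [Function.iterate_succ_apply]
    apply ih (delta x φ) (cT c) ?_ s g hg
    intro s g hg
    simp only [delta, cT]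
    have e : x * (x ^ s * g) = x ^ (s + 1) * g := by rw [pow_succ']; group
    rw [e, h (s + 1) g hg, h s g hg]
    push_cast
    ring

theorem exists_list_subtype {G : Type u} [Group G] (M : Subgroup G) (R : List (ℕ × G))
    (hR : ∀ q ∈ R, q.2 ∈ M) : ∃ R' : List (ℕ × M), R'.map (fun q => (q.1, (q.2 : G))) = R := by
  induction R with
  | nil => exact ⟨[], rfl⟩
  | cons r l ih =>
    obtain ⟨R', hR'⟩ := ih (fun q hq => hR q (List.mem_cons_of_mem _ hq))
    exact ⟨(r.1, ⟨r.2, hR r List.mem_cons_self⟩) :: R', by simp [hR']⟩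

/-- The count for a function supported on a subgroup of index `p ^ h`. -/
theorem count_support {p : ℕ} [hp : Fact p.Prime] (h : ℕ) : ∀ {G : Type} [Group G] [Finite G]
    (_ : IsPGroup p G) (f : G → ZMod p) (_ : f 1 = 0) (H : Subgroup G) (_ : H.index = p ^ h)
    (_ : ∀ x, x ∉ H → x ^ p = 1 ∧ f x = 0) {F : ℕ → Subgroup G} (_ : SFilt F) (_ : F 1 = ⊤)
    (_ : ∃ N, F N = ⊥) (μ : ℕ) (_ : Deg F f μ) (T : List (ℕ × G)) (_ : T ≠ [])
    (_ : ∀ q ∈ T, q.2 ∈ F q.1) (_ : ∀ q ∈ T, 1 ≤ q.1) (_ : μ = (T.map Prod.fst).sum)
    (_ : Dl f (T.map Prod.snd) ≠ 0), h * (p - 1) + 1 ≤ T.length := by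
  classical
  induction h with
  | zero =>
    intro G _ _ _ f _ H _ _ F _ _ _ μ _ T hT _ _ _ _
    have := List.length_pos_iff.mpr hT
    omega
  | succ h ih =>
    intro G _ _ hG f hf1 H hH hx F hF h1 hN μ hd T hT hTF hT1 hμ hD
    have hp2 := hp.out.two_le
    -- a maximal subgroup containing `H`
    have hHne : H ≠ ⊤ := by
      rintro rfl
      rw [index_top] at hH
      exact (Nat.one_lt_pow (Nat.succ_ne_zero h) hp.out.one_lt).ne hH
    obtain ⟨M, hM, hHM⟩ : ∃ M, IsCoatom M ∧ H ≤ M := by
      rcases IsCoatomic.eq_top_or_exists_le_coatom H with h | h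
      · exact absurd h hHne
      · exact h
    have hMi : M.index = p := Pool.CharExpP.index_of_coatom hG hM
    have hMn : M.Normal := Pool.CharExpP.normal_of_index_prime hp.out hG hMi
    -- the maximal weight of an element outside `M`
    obtain ⟨N, hN⟩ := hN
    have hfin : ∀ k, N ≤ k → F k ≤ M := fun k hk => (hF.anti_le hk).trans (by rw [hN]; exact bot_le)
    obtain ⟨vx, hvx, hvmax⟩ : ∃ vx, ¬ F vx ≤ M ∧ ∀ k, ¬ F k ≤ M → k ≤ vx := by
      have hne : {k | ¬ F k ≤ M}.Nonempty := ⟨1, by
        show ¬ F 1 ≤ M
        rw [h1, top_le_iff]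
        exact hM.1⟩
      have hbdd : BddAbove {k | ¬ F k ≤ M} := ⟨N, by
        intro k hk
        by_contra hc
        exact hk (hfin k (by omega))⟩
      exact ⟨sSup {k | ¬ F k ≤ M}, Nat.sSup_mem hne hbdd, fun k hk => le_csSup hbdd hk⟩
    obtain ⟨x, hxF, hxM⟩ := Set.not_subset.mp hvx
    have hxF : x ∈ F vx := hxF
    have hxM : x ∉ M := hxM
    have hvx1 : 1 ≤ vx := hvmax 1 (by
      rw [h1, top_le_iff]
      exact hM.1)
    have hvle : ∀ v (y : G), y ∈ F v → y ∉ M → v ≤ vx := fun v y hy hyM =>
      hvmax v (fun hc => hyM (hc hy))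
    have hxp : x ^ p = 1 := (hx x (fun hc => hxM (hHM hc))).1
    -- replacement of the letters
    let S : Set G := {z | z = x ∨ z ∈ M}
    have hS : ∀ v, 1 ≤ v → F v ≤ closure ((F v : Set G) ∩ S) := by
      intro v hv y hy
      by_cases hyM : y ∈ M
      · exact Subgroup.subset_closure ⟨hy, Or.inr hyM⟩
      · have hxv : x ∈ F v := hF.anti_le (hvle v y hy hyM) hxF
        obtain ⟨a, ha⟩ := Pool.CharExpP.exists_zpow hp.out hMi hxM y
        have e : y = (y * x ^ a) * x ^ (-a) := by group
        rw [e]
        refine mul_mem (Subgroup.subset_closure ⟨mul_mem hy (zpow_mem hxv a), Or.inr ha⟩) ?_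
        have hxc : x ∈ closure ((F v : Set G) ∩ S) :=
          Subgroup.subset_closure ⟨hxv, Or.inl rfl⟩
        exact zpow_mem hxc _
    obtain ⟨L, e1, e2, e3⟩ := replace hd S hS T [] (by simp) hTF hT1 (by simpa using hμ.le)
      (by simpa using hD)
    simp only [List.map_nil, List.nil_append] at e3
    have hLlen : L.length = T.length := by
      have := congrArg List.length e1
      simpa using this
    have hLsum : (L.map Prod.fst).sum = μ := by rw [e1, hμ]
    have hL1 : ∀ q ∈ L, 1 ≤ q.1 := by
      intro q hq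
      have : q.1 ∈ L.map Prod.fst := List.mem_map_of_mem hq
      rw [e1, List.mem_map] at this
      obtain ⟨q', hq', he⟩ := this
      rw [← he]
      exact hT1 q' hq'
    -- weights of the letters `x`
    have hwx : ∀ q ∈ L, q.2 = x → q.1 = vx := by
      intro q hq hqx
      have h3 : q.1 ≤ vx := hvle q.1 q.2 (e2 q hq).1 (by rw [hqx]; exact hxM)
      by_contra hne
      have hlt : q.1 < vx := by omega
      obtain ⟨B, C, rfl⟩ := List.append_of_mem hq
      have h4 := hd (B ++ (vx, x) :: C) (by simp) (by
        intro r hr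
        rw [List.mem_append, List.mem_cons] at hr
        rcases hr with hr | rfl | hr
        · exact (e2 r (List.mem_append_left _ hr)).1
        · exact hxF
        · exact (e2 r (List.mem_append_right _ (List.mem_cons_of_mem _ hr))).1) (by
        simp only [List.map_append, List.map_cons, List.sum_append, List.sum_cons] at hLsum ⊢
        omega)
      apply e3
      simp only [List.map_append, List.map_cons] at h4 ⊢
      rw [hqx]
      exact h4
    -- the partition
    set X := L.filter (fun q => decide (q.2 = x)) with hX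
    set R := L.filter (fun q => !decide (q.2 = x)) with hR
    have hperm : (X ++ R).Perm L := List.filter_append_perm _ L
    set b := X.length with hb
    have hXrep : X = List.replicate b (vx, x) := by
      apply List.eq_replicate_of_mem
      intro q hq
      rw [hX, List.mem_filter] at hq
      have h3 : q.2 = x := by simpa using hq.2
      exact Prod.ext (hwx q hq.1 h3) h3
    have hRM : ∀ q ∈ R, q.2 ∈ M := by
      intro q hq
      rw [hR, List.mem_filter] at hq
      have h3 : ¬ q.2 = x := by simpa using hq.2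
      rcases (e2 q hq.1).2 with h4 | h4
      · exact absurd h4 h3
      · exact h4
    have hRF : ∀ q ∈ R, q.2 ∈ F q.1 := fun q hq => (e2 q (List.mem_filter.mp hq).1).1
    have hR1 : ∀ q ∈ R, 1 ≤ q.1 := fun q hq => hL1 q (List.mem_filter.mp hq).1
    have hlen : b + R.length = T.length := by
      rw [← hLlen, ← hperm.length_eq, List.length_append]
    have hsum : b * vx + (R.map Prod.fst).sum = μ := by
      rw [← hLsum, ← (hperm.map Prod.fst).sum_eq, List.map_append, List.sum_append, hXrep]
      simp
    have hD2 : Dl f (List.replicate b x ++ R.map Prod.snd) ≠ 0 := by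
      have h3 := Dl_perm hF hd hperm.symm [] (by simp) (fun q hq => (e2 q hq).1) (by simp [hLsum])
      simp only [List.map_nil, List.nil_append] at h3
      rw [h3, List.map_append, hXrep, List.map_replicate] at e3
      exact e3
    -- coefficients
    have hbase : ∀ s : ℕ, ∀ g ∈ M, f (x ^ s * g) = (fun s : ZMod p => if s = 0 then (1 : ZMod p) else 0) s * f g := by
      intro s g hg
      show _ = (if (s : ZMod p) = 0 then (1 : ZMod p) else 0) * f g
      by_cases hs : (s : ZMod p) = 0
      · rw [if_pos hs, one_mul]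
        rw [ZMod.natCast_eq_zero_iff] at hs
        obtain ⟨k, rfl⟩ := hs
        rw [pow_mul, hxp, one_pow, one_mul]
      · rw [if_neg hs, zero_mul]
        apply (hx _ ?_).2
        intro hc
        have h3 : x ^ s * g ∈ M := hHM hc
        have h4 : x ^ s ∈ M := (mul_mem_cancel_right hg).mp h3
        -- then `x ∈ M`
        have h5 : Nat.Coprime s p := by
          rw [Nat.coprime_comm]
          exact (Nat.Prime.coprime_iff_not_dvd hp.out).mpr
            (fun hc => hs ((ZMod.natCast_eq_zero_iff _ _).mpr hc))
        have h6 : x ∈ M := by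
          have h7 : x ^ (Nat.gcd s p : ℤ) ∈ M := by
            rw [Nat.gcd_eq_gcd_ab, zpow_add, zpow_mul, zpow_mul, zpow_natCast, zpow_natCast, hxp,
              one_zpow, mul_one]
            exact zpow_mem h4 _
          rw [h5] at h7
          simpa using h7
        exact hxM h6
    have hcoef : ∀ (b' : ℕ) (R' : List G), (∀ y ∈ R', y ∈ M) →
        Dl f (List.replicate b' x ++ R') = cco p b' 0 * Dl f R' := by
      intro b' R' hR'
      rw [Dl_append]
      have h3 : ∀ g ∈ M, deltas (List.replicate b' x) f g = (fun g => cco p b' 0 * f g) g := by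
        intro g hg
        have := deltas_replicate (M := M) (x := x) f b' f
          (fun s : ZMod p => if s = 0 then (1 : ZMod p) else 0) hbase 0 g hg
        rw [pow_zero, one_mul, Nat.cast_zero] at this
        exact this
      rw [Dl_congr_of_mem (H := M) _ _ R' h3 hR']
      -- scalar multiple
      have h4 : ∀ (l : List G) (φ : G → ZMod p), Dl (fun g => cco p b' 0 * φ g) l =
          cco p b' 0 * Dl φ l := by
        intro l
        induction l with
        | nil => intro φ; rfl
        | cons y ys ih4 =>
          intro φ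
          rw [Dl_cons, Dl_cons, ← ih4]
          congr 1
          funext g
          simp only [delta]
          ring
      exact h4 R' f
    have hRM' : ∀ y ∈ R.map Prod.snd, y ∈ M := by
      intro y hy
      rw [List.mem_map] at hy
      obtain ⟨q, hq, rfl⟩ := hy
      exact hRM q hq
    rw [hcoef b _ hRM'] at hD2
    have hcb : cco p b 0 ≠ 0 := left_ne_zero_of_mul hD2
    have hDR : Dl f (R.map Prod.snd) ≠ 0 := right_ne_zero_of_mul hD2
    have hRne : R ≠ [] := by
      intro hc
      rw [hc] at hDR
      exact hDR (by simpa using hf1)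
    -- `b ≥ p - 1`
    have hbp : p - 1 ≤ b := by
      by_contra hlt
      push Not at hlt
      have h3 := hd (List.replicate (p - 1) (vx, x) ++ R) (by simp [hRne]) (by
        intro q hq
        rw [List.mem_append] at hq
        rcases hq with hq | hq
        · rw [List.eq_of_mem_replicate hq]; exact hxF
        · exact hRF q hq) (by
        rw [List.map_append, List.sum_append, ← hsum, List.map_replicate, List.sum_replicate,
          smul_eq_mul]
        have : b * vx < (p - 1) * vx := Nat.mul_lt_mul_of_pos_right hlt (by omega)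
        show b * vx + _ < (p - 1) * vx + _
        omega)
      rw [List.map_append, List.map_replicate, hcoef _ _ hRM'] at h3
      exact hDR ((mul_eq_zero.mp h3).resolve_left (cco_ne (p - 1) (by omega)))
    -- pass to `M`
    obtain ⟨R', hR'⟩ := exists_list_subtype M R hRM
    have hF' : SFilt (fun k => (F k).subgroupOf M) := by
      refine ⟨fun i => ?_, fun i j => ?_⟩
      · exact comap_mono (hF.anti i)
      · rw [commutator_le]
        intro a ha c hc
        exact hF.comm_mem ha hc
    have hres := ih (G := M) (hG.to_subgroup M) (fun g => f g) (by simpa using hf1) (H.subgroupOf M)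
      (by
        have h3 := relIndex_mul_index hHM
        rw [hMi, hH, pow_succ] at h3
        exact Nat.eq_of_mul_eq_mul_right hp.out.pos h3)
      (by
        intro y hy
        have h3 : (y : G) ∉ H := hy
        obtain ⟨h4, h5⟩ := hx y h3
        exact ⟨by ext; simpa using h4, h5⟩)
      hF' (by
        show (F 1).subgroupOf M = ⊤
        rw [h1]
        exact top_subgroupOf M)
      ⟨N, by
        show (F N).subgroupOf M = ⊥
        rw [hN]
        exact bot_subgroupOf M⟩
      (R.map Prod.fst).sum (by
        intro l hl hlF hsuml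
        by_contra hne
        have h3 := hd (List.replicate b (vx, x) ++ l.map (fun q => (q.1, (q.2 : G)))) (by simp [hl])
          (by
            intro q hq
            rw [List.mem_append] at hq
            rcases hq with hq | hq
            · rw [List.eq_of_mem_replicate hq]; exact hxF
            · rw [List.mem_map] at hq
              obtain ⟨q', hq', rfl⟩ := hq
              exact hlF q' hq') (by
            rw [List.map_append, List.sum_append, ← hsum, List.map_replicate, List.sum_replicate,
              smul_eq_mul, List.map_map]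
            have e : (l.map (Prod.fst ∘ fun q : ℕ × M => (q.1, (q.2 : G)))) = l.map Prod.fst := by
              apply List.map_congr_left; intro q _; rfl
            rw [e]
            show b * vx + _ < b * vx + _
            omega)
        rw [List.map_append, List.map_replicate, List.map_map] at h3
        have e : (l.map (Prod.snd ∘ fun q : ℕ × M => (q.1, (q.2 : G)))) =
            (l.map Prod.snd).map M.subtype := by
          rw [List.map_map]
          apply List.map_congr_left; intro q _; rfl
        rw [e, hcoef b _ (by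
          intro y hy
          rw [List.mem_map] at hy
          obtain ⟨z, _, rfl⟩ := hy
          exact z.2), ← Dl_map] at h3
        exact hne ((mul_eq_zero.mp h3).resolve_left hcb))
      R' (by
        rintro rfl
        exact hRne hR'.symm)
      (by
        intro q hq
        have : (q.1, (q.2 : G)) ∈ R := by
          rw [← hR']
          exact List.mem_map_of_mem hq
        exact hRF _ this)
      (by
        intro q hq
        have : (q.1, (q.2 : G)) ∈ R := by
          rw [← hR']
          exact List.mem_map_of_mem hq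
        exact hR1 _ this)
      (by
        rw [← hR', List.map_map]
        congr 1)
      (by
        have h3 := Dl_map M.subtype f (R'.map Prod.snd)
        have e : (R'.map Prod.snd).map M.subtype = R.map Prod.snd := by
          rw [← hR', List.map_map, List.map_map]
          apply List.map_congr_left; intro q _; rfl
        rw [e] at h3
        rw [show (fun g : M => f g) = (fun k => f (M.subtype k)) from rfl, h3]
        exact hDR)
    have hlen' : R'.length = R.length := by
      rw [← hR', List.length_map]
    rw [hlen'] at hres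
    rw [← hlen, add_mul, one_mul]
    omega

end Pool.Agent.Lib.H80U
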