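import Pool.Agent.Lib.H80U.Setup
import Pool.Agent.Lib.CharExpP.Small

/-!
# The maximal index of the Hughes subgroup and the optimal bound
-/

namespace Pool.Agent.Lib.H80U

open Subgroup
open scoped commutatorElement

theorem realise {p : ℕ} [hp : Fact p.Prime] {α : Type} {φ : FreeGroup α → ZMod p}
    (h : PowFun p α φ) {M : Type} [CommGroup M] [Finite M] (hM : ∀ x : M, x ^ p = 1)
    (E : FreeGroup α →* M) :
    ∃ (R : Type) (_ : Group R) (_ : Finite R) (ρ : FreeGroup α →* R) (χ : R →* M),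
      IsPGroup p R ∧ Function.Surjective ρ ∧ (∀ w, χ (ρ w) = E w) ∧
      ∀ w, (ρ w) ^ p = 1 ↔ φ w = 0 := by
  obtain ⟨G, i1, i2, c, π, h1, h2, h3, h4, h5⟩ := h
  let P : FreeGroup α →* G × M := π.prod E
  have hGM : IsPGroup p (G × M) := by
    rintro ⟨g, k⟩
    obtain ⟨a, ha⟩ := h1 g
    refine ⟨a + 1, ?_⟩
    rw [Prod.pow_mk, pow_succ, pow_mul, ha, one_pow, mul_comm, pow_mul, hM, one_pow]
    rfl
  refine ⟨P.range, inferInstance, inferInstance, P.rangeRestrict,
    (MonoidHom.snd G M).comp P.range.subtype, hGM.to_subgroup _, P.rangeRestrict_surjective,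
    fun w => rfl, fun w => ?_⟩
  have e1 : ((P.rangeRestrict w) ^ p = 1) ↔ (P w) ^ p = 1 := by
    rw [Subtype.ext_iff]
    exact Iff.rfl
  rw [e1]
  have e2 : (P w) ^ p = (c ^ (φ w).val, 1) := by
    show (π w, E w) ^ p = _
    rw [Prod.pow_mk, h5, hM]
  rw [e2]
  constructor
  · intro h0
    have h6 : c ^ (φ w).val = 1 := congrArg Prod.fst h0
    have h7 := orderOf_dvd_of_pow_eq_one h6
    rw [orderOf_eq_prime h3 h2] at h7
    exact (ZMod.val_eq_zero _).mp (Nat.eq_zero_of_dvd_of_lt h7 (ZMod.val_lt _))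
  · intro h0
    rw [h0, ZMod.val_zero, pow_zero]
    rfl

theorem ex_list_prod {m : ℕ} (a : Fin m → ℕ) (i : Fin m) :
    ex i ((List.ofFn (fun j : Fin m => FreeGroup.of j ^ a j)).prod) = a i := by
  unfold ex
  rw [map_list_prod, List.map_ofFn, List.prod_ofFn, toAdd_prod]
  have h1 : ∀ j, Multiplicative.toAdd (((expo i) ∘ fun j : Fin m => FreeGroup.of j ^ a j) j) =
      if j = i then (a j : ℤ) else 0 := by
    intro j
    simp only [Function.comp_apply, map_pow, expo, FreeGroup.lift_apply_of, toAdd_pow, toAdd_ofAdd]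
    split_ifs <;> simp
  rw [Finset.sum_congr rfl (fun j _ => h1 j)]
  simp

/-- Exponents modulo `p`. -/
def exHom (p : ℕ) {α I : Type} [DecidableEq α] (b : I → α) :
    FreeGroup α →* Multiplicative (I → ZMod p) where
  toFun w := Multiplicative.ofAdd (fun i => ((ex (b i) w : ℤ) : ZMod p))
  map_one' := by
    rw [ofAdd_eq_one]
    funext i
    simp [ex_one]
  map_mul' w w' := by
    rw [← ofAdd_add]
    congr 1
    funext i
    simp [ex_mul]

theorem mult_pow {p : ℕ} {I : Type} (x : Multiplicative (I → ZMod p)) : x ^ p = 1 := by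
  rw [← ofAdd_toAdd x, ← ofAdd_nsmul, ofAdd_eq_one]
  funext i
  simp

theorem not_forces_of_powFun {p m : ℕ} [hp : Fact p.Prime]
    (h : PowFun p (Fin m) (fun w => ∏ i, ((ex i w : ℤ) : ZMod p))) : ¬ Pool.CharExpP.Forces p m := by
  intro hF
  obtain ⟨R, iR, fR, ρ, χ, hR, hρ, hχ, hpow⟩ := realise h (mult_pow (p := p) (I := Fin m))
    (exHom p (fun i : Fin m => i))
  let χi : ∀ i : Fin m, R →* Multiplicative (ZMod p) := fun i =>
    (AddMonoidHom.toMultiplicative (Pi.evalAddMonoidHom (fun _ : Fin m => ZMod p) i)).comp χ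
  have hχi : ∀ i w, χi i (ρ w) = Multiplicative.ofAdd ((ex i w : ℤ) : ZMod p) := by
    intro i w
    show Multiplicative.ofAdd ((Multiplicative.toAdd (χ (ρ w))) i) = _
    rw [hχ]; rfl
  -- surjectivity
  have hsurj : Function.Surjective χ := by
    intro v
    refine ⟨ρ ((List.ofFn (fun j : Fin m => FreeGroup.of j ^ (Multiplicative.toAdd v j).val)).prod),
      ?_⟩
    rw [hχ]
    show Multiplicative.ofAdd _ = v
    rw [← ofAdd_toAdd v]
    congr 1
    funext i
    rw [ex_list_prod]
    simp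
  have hsurji : ∀ i, Function.Surjective (χi i) := by
    intro i a
    obtain ⟨r, hr⟩ := hsurj (Multiplicative.ofAdd (fun _ => Multiplicative.toAdd a))
    refine ⟨r, ?_⟩
    show Multiplicative.ofAdd ((Multiplicative.toAdd (χ r)) i) = a
    rw [hr]; rfl
  have hI : Pool.CharExpP.IndepMax p m R (fun i => (χi i).ker) := by
    refine ⟨?_, ?_, ?_⟩
    · intro i
      rw [index_ker, MonoidHom.range_eq_top.mpr (hsurji i), card_top]
      simp
    · intro i x hx
      obtain ⟨w, rfl⟩ := hρ x
      rw [hpow]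
      have h1 : Multiplicative.ofAdd ((ex i w : ℤ) : ZMod p) = 1 := by
        rw [← hχi]; exact hx
      rw [ofAdd_eq_one] at h1
      exact Finset.prod_eq_zero (Finset.mem_univ i) h1
    · have h1 : (⨅ i, (χi i).ker) = χ.ker := by
        ext x
        rw [mem_iInf, MonoidHom.mem_ker]
        constructor
        · intro hx
          rw [← ofAdd_toAdd (χ x), ofAdd_eq_one]
          funext i
          exact ofAdd_eq_one.mp (hx i)
        · intro hx i
          show Multiplicative.ofAdd ((Multiplicative.toAdd (χ x)) i) = 1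
          rw [hx]; rfl
      rw [h1, index_ker, MonoidHom.range_eq_top.mpr hsurj, card_top]
      simp
  have h1 := hF R hR _ hI (ρ ((List.ofFn (fun j : Fin m => FreeGroup.of j ^ 1)).prod))
  rw [hpow] at h1
  have h2 : ∀ i, ex i ((List.ofFn (fun j : Fin m => FreeGroup.of j ^ 1)).prod) = 1 := by
    intro i
    have := ex_list_prod (fun _ : Fin m => 1) i
    simpa using this
  simp only [h2, Int.cast_one, Finset.prod_const_one] at h1
  exact one_ne_zero h1

theorem commutator_le_of_index {p : ℕ} [hp : Fact p.Prime] {G : Type} [Group G]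
    {H : Subgroup G} [H.Normal] (hi : H.index = p) : ⁅(⊤ : Subgroup G), (⊤ : Subgroup G)⁆ ≤ H := by
  rw [commutator_le]
  intro a _ b _
  have hc : Nat.card (G ⧸ H) = p := hi
  have : IsCyclic (G ⧸ H) := isCyclic_of_prime_card hc
  have h1 : ((a : G) : G ⧸ H) * b = (b : G ⧸ H) * a := by
    let _ := IsCyclic.commGroup (α := G ⧸ H)
    exact mul_comm _ _
  rw [← QuotientGroup.eq_one_iff, commutatorElement_def]
  show ((a : G) : G ⧸ H) * b * (a : G ⧸ H)⁻¹ * (b : G ⧸ H)⁻¹ = 1
  rw [h1]
  group

theorem powFun_of_not_forces {p n : ℕ} [hp : Fact p.Prime] (h : ¬ Pool.CharExpP.Forces p n) :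
    ∃ m, n ≤ m ∧ PowFun p (Fin m) (fun w => ∏ i, ((ex i w : ℤ) : ZMod p)) := by
  unfold Pool.CharExpP.Forces at h
  push Not at h
  obtain ⟨G, iG, fG, hG, H, hH, hg⟩ := h
  obtain ⟨N, hNn, hNP, c, hc1, hcp, hcc, hzp, q0, hq0⟩ := central_quotient hG hg
  have hHn : ∀ i, (H i).Normal := fun i =>
    Pool.CharExpP.normal_of_index_prime hp.out hG (hH.index i)
  have hPH : ∀ i, normalClosure (Set.range (fun g : G => g ^ p)) ≤ H i := by
    intro i
    have := hHn i
    apply normalClosure_le_normal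
    rintro _ ⟨g, rfl⟩
    have := (H i).pow_index_mem g
    rwa [hH.index i] at this
  have hNH : ∀ i, N ≤ H i := fun i => hNP.trans (hPH i)
  have hI := Pool.CharExpP.indep_of_index hp.out hH.index hH.inf
  let mk : G →* G ⧸ N := QuotientGroup.mk' N
  have hmk : Function.Surjective mk := QuotientGroup.mk'_surjective N
  have hQ : IsPGroup p (G ⧸ N) := hG.to_quotient N
  obtain ⟨f, hf, hf0⟩ := exists_expFun hc1 hcp hzp
  have hf1 : f 1 = 0 := by rw [hf0, one_pow]
  obtain ⟨T, hT1, hT2, hT3, hD, hd⟩ := exists_max hQ f hf1 ⟨q0, fun h0 => hq0 ((hf0 q0).mp h0)⟩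
    (lcs2_sfilt (G ⧸ N)) (lcs2_one _) (lcs2_bot hQ)
  have hmem : ∀ i (g : G), mk g ∈ (H i).map mk ↔ g ∈ H i := by
    intro i g
    constructor
    · rintro ⟨k, hk, hkg⟩
      have h1 : k⁻¹ * g ∈ N := QuotientGroup.eq.mp hkg
      have : g = k * (k⁻¹ * g) := by group
      rw [this]
      exact mul_mem hk (hNH i h1)
    · exact fun hg => mem_map_of_mem mk hg
  have hidx : ∀ i, ((H i).map mk).index = p := by
    intro i
    rw [index_map, QuotientGroup.ker_mk', sup_eq_left.mpr (hNH i), hH.index,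
      MonoidHom.range_eq_top.mpr hmk, index_top, mul_one]
  have hnor : ∀ i, ((H i).map mk).Normal := fun i => (hHn i).map mk hmk
  refine ⟨T.length, ?_, powFun_of_tuple hQ hc1 hcp hcc f hf (lcs2_sfilt (G ⧸ N)) T hT2 hT3 hD hd⟩
  refine count_indep (p := p) hd (lcs2_one _) (fun i => (H i).map mk) hnor hidx ?_ ?_ ?_ T hT2 hT3
    le_rfl hD
  · intro i
    obtain ⟨y, hy1, hy2⟩ := hI i
    exact ⟨mk y, fun hc => hy1 ((hmem i y).mp hc), fun j hj => (hmem j y).mpr (hy2 j hj)⟩
  · rintro i _ ⟨g, hg, rfl⟩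
    rw [hf0, ← map_pow, hH.exp i g hg, map_one]
  · intro i v hv
    have := hnor i
    refine le_trans ?_ (commutator_le_of_index (hidx i))
    have h1 : lcs2 (G ⧸ N) v ≤ (⊤ : Subgroup (G ⧸ N)).lowerCentralSeries 1 :=
      Subgroup.lowerCentralSeries_antitone (⊤ : Subgroup (G ⧸ N)) (by omega)
    exact h1

/-- The Hughes subgroup. -/
def hug (p : ℕ) (G : Type) [Group G] : Subgroup G := closure {x : G | x ^ p ≠ 1}

theorem hug_normal (p : ℕ) (G : Type) [Group G] : (hug p G).Normal := by
  refine ⟨?_⟩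
  intro x hx g
  have h1 : (hug p G).map (MulAut.conj g).toMonoidHom ≤ hug p G := by
    unfold hug
    rw [MonoidHom.map_closure, closure_le]
    rintro _ ⟨y, hy, rfl⟩
    apply Subgroup.subset_closure
    show (g * y * g⁻¹) ^ p ≠ 1
    rw [conj_pow]
    intro h
    apply hy
    have : y ^ p = g⁻¹ * (g * y ^ p * g⁻¹) * g := by group
    rw [this, h]
    group
  exact h1 ⟨x, hx, rfl⟩

theorem powFun_of_hughes {p k : ℕ} [hp : Fact p.Prime] {G : Type} [Group G] [Finite G]
    (hG : IsPGroup p G) (hg : ∃ g : G, g ^ p ≠ 1) (hk : p ^ k < (hug p G).index) :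
    ∃ m, (k + 1) * (p - 1) + 1 ≤ m ∧ PowFun p (Fin m) (fun w => ∏ i, ((ex i w : ℤ) : ZMod p)) := by
  obtain ⟨N, hNn, hNP, c, hc1, hcp, hcc, hzp, q0, hq0⟩ := central_quotient hG hg
  set H := hug p G with hH
  have hHn : H.Normal := hug_normal p G
  have hout : ∀ x : G, x ∉ H → x ^ p = 1 := by
    intro x hx
    by_contra hc
    exact hx (Subgroup.subset_closure hc)
  have hPH : normalClosure (Set.range (fun g : G => g ^ p)) ≤ H := by
    apply normalClosure_le_normal
    rintro _ ⟨g, rfl⟩
    by_cases hgH : g ∈ H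
    · exact pow_mem hgH p
    · show g ^ p ∈ H
      rw [hout g hgH]
      exact one_mem _
  have hNH : N ≤ H := hNP.trans hPH
  let mk : G →* G ⧸ N := QuotientGroup.mk' N
  have hmk : Function.Surjective mk := QuotientGroup.mk'_surjective N
  have hQ : IsPGroup p (G ⧸ N) := hG.to_quotient N
  obtain ⟨f, hf, hf0⟩ := exists_expFun hc1 hcp hzp
  have hf1 : f 1 = 0 := by rw [hf0, one_pow]
  obtain ⟨T, hT1, hT2, hT3, hD, hd⟩ := exists_max hQ f hf1 ⟨q0, fun h0 => hq0 ((hf0 q0).mp h0)⟩
    (lcs2_sfilt (G ⧸ N)) (lcs2_one _) (lcs2_bot hQ)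
  have hidx : (H.map mk).index = H.index := by
    rw [index_map, QuotientGroup.ker_mk', sup_eq_left.mpr hNH,
      MonoidHom.range_eq_top.mpr hmk, index_top, mul_one]
  obtain ⟨j, hj⟩ : ∃ j, H.index = p ^ j := hG.index H
  have hjk : k < j := by
    rw [hj] at hk
    exact (Nat.pow_lt_pow_iff_right hp.out.one_lt).mp hk
  refine ⟨T.length, ?_, powFun_of_tuple hQ hc1 hcp hcc f hf (lcs2_sfilt (G ⧸ N)) T hT2 hT3 hD hd⟩
  have h1 := count_support j hQ f hf1 (H.map mk) (by rw [hidx, hj]) (by
    intro x hx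
    obtain ⟨g, rfl⟩ := hmk x
    have hgH : g ∉ H := fun h => hx (mem_map_of_mem mk h)
    have h2 : (mk g) ^ p = 1 := by rw [← map_pow, hout g hgH, map_one]
    exact ⟨h2, (hf0 _).mpr h2⟩) (lcs2_sfilt (G ⧸ N)) (lcs2_one _) (lcs2_bot hQ)
    (T.map Prod.fst).sum hd T hT1 hT2 hT3 rfl hD
  have h2 : (k + 1) * (p - 1) ≤ j * (p - 1) := Nat.mul_le_mul_right _ hjk
  omega

/-! ## From a multilinear power function to a group with a small Hughes subgroup -/

theorem pow_eq_self {p : ℕ} [hp : Fact p.Prime] (e : ZMod p) {r : ℕ} (hr : 1 ≤ r)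
    (hd : (p - 1) ∣ (r - 1)) : e ^ r = e := by
  by_cases he : e = 0
  · rw [he, zero_pow (by omega)]
  · obtain ⟨q, hq⟩ := hd
    have h1 : r = (p - 1) * q + 1 := by omega
    rw [h1, pow_succ, pow_mul, ZMod.pow_card_sub_one_eq_one he, one_pow, one_mul]

theorem powFun_block {p m k : ℕ} [hp : Fact p.Prime] (hm : (k + 1) * (p - 1) + 1 ≤ m)
    (h : PowFun p (Fin m) (fun w => ∏ i, ((ex i w : ℤ) : ZMod p))) :
    PowFun p (Option (Fin (k + 1))) (fun w => ((ex none w : ℤ) : ZMod p) *
      ∏ i : Fin (k + 1), ((ex (some i) w : ℤ) : ZMod p) ^ (p - 1)) := by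
  classical
  obtain ⟨hm1, hdv⟩ := modEq_of_powFun h
  set r := m - (k + 1) * (p - 1) with hr
  let e : Fin m ≃ Fin r ⊕ (Fin (k + 1) × Fin (p - 1)) := Fintype.equivOfCardEq (by
    simp only [Fintype.card_fin, Fintype.card_sum, Fintype.card_prod]
    omega)
  let blk0 : Fin r ⊕ (Fin (k + 1) × Fin (p - 1)) → Option (Fin (k + 1)) :=
    Sum.elim (fun _ => none) (fun q => some q.1)
  let blk : Fin m → Option (Fin (k + 1)) := fun j => blk0 (e j)
  let a : FreeGroup (Option (Fin (k + 1))) →* FreeGroup (Fin m) :=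
    FreeGroup.lift (fun o => (List.ofFn (fun j : Fin m =>
      FreeGroup.of j ^ (if blk j = o then 1 else 0))).prod)
  have ha : ∀ j w, ex j (a w) = ex (blk j) w := by
    intro j w
    have : (expo j).comp a = expo (blk j) := by
      apply FreeGroup.ext_hom
      intro o
      rw [MonoidHom.comp_apply]
      show expo j (FreeGroup.lift _ (FreeGroup.of o)) = expo (blk j) (FreeGroup.of o)
      rw [FreeGroup.lift_apply_of]
      have h1 := ex_list_prod (fun j : Fin m => if blk j = o then 1 else 0) j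
      have h2 := ex_of (blk j) o
      unfold ex at h1 h2
      apply Multiplicative.toAdd.injective
      rw [h1, h2]
      by_cases hb : blk j = o
      · simp [hb]
      · rw [if_neg hb, if_neg (Ne.symm hb)]; rfl
    unfold ex
    rw [← this]; rfl
  have h1 := h.comp a
  convert h1 using 2 with w
  simp only [ha]
  have h2 : ∏ j : Fin m, ((ex (blk j) w : ℤ) : ZMod p) =
      ∏ s : Fin r ⊕ (Fin (k + 1) × Fin (p - 1)), ((ex (blk0 s) w : ℤ) : ZMod p) :=
    Fintype.prod_equiv e _ _ (fun j => rfl)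
  rw [h2, Fintype.prod_sum_type, Fintype.prod_prod_type]
  simp only [blk0, Sum.elim_inl, Sum.elim_inr, Finset.prod_const, Finset.card_univ,
    Fintype.card_fin]
  rw [pow_eq_self _ (by omega) (by
    have h3 : r - 1 = (m - 1) - (k + 1) * (p - 1) := by omega
    rw [h3]
    exact Nat.dvd_sub hdv (Dvd.intro_left _ rfl))]

theorem powFun_subspace {p k : ℕ} [hp : Fact p.Prime]
    (h : PowFun p (Option (Fin (k + 1))) (fun w => ((ex none w : ℤ) : ZMod p) *
      ∏ i : Fin (k + 1), ((ex (some i) w : ℤ) : ZMod p) ^ (p - 1))) (S : Finset (Fin (k + 1))) :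
    PowFun p (Option (Fin (k + 1))) (fun w => ((ex none w : ℤ) : ZMod p) *
      ∏ i : Fin (k + 1), (if i ∈ S then 1 - ((ex (some i) w : ℤ) : ZMod p) ^ (p - 1) else
        ((ex (some i) w : ℤ) : ZMod p) ^ (p - 1))) := by
  classical
  have hp2 := hp.out.two_le
  induction S using Finset.induction_on with
  | empty => simpa using h
  | insert j S hj ih =>
    let a : FreeGroup (Option (Fin (k + 1))) →* FreeGroup (Option (Fin (k + 1))) :=
      FreeGroup.lift (fun o => if o = none then FreeGroup.of none * FreeGroup.of (some j) else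
        if o = some j then 1 else FreeGroup.of o)
    have ha : ∀ (o o' : Option (Fin (k + 1))), (∀ b, ex o (a (FreeGroup.of b)) = ex o' (FreeGroup.of b)) →
        ∀ w, ex o (a w) = ex o' w := by
      intro o o' hb w
      have : (expo o).comp a = expo o' := by
        apply FreeGroup.ext_hom
        intro b
        exact Multiplicative.toAdd.injective (hb b)
      unfold ex
      rw [← this]; rfl
    have haof : ∀ b, a (FreeGroup.of b) = if b = none then FreeGroup.of none * FreeGroup.of (some j)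
        else if b = some j then 1 else FreeGroup.of b := by
      intro b
      show FreeGroup.lift _ (FreeGroup.of b) = _
      rw [FreeGroup.lift_apply_of]
    have h1 : ∀ w, ex none (a w) = ex none w := by
      apply ha
      intro b
      rw [haof]
      by_cases hb : b = none
      · subst hb; simp [ex_mul, ex_of]
      · by_cases hbj : b = some j
        · subst hbj; simp [ex_one, ex_of]
        · simp [hb, hbj, ex_of]
    have h2 : ∀ w, ex (some j) (a w) = ex none w := by
      apply ha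
      intro b
      rw [haof]
      by_cases hb : b = none
      · subst hb; simp [ex_mul, ex_of]
      · by_cases hbj : b = some j
        · subst hbj; simp [ex_one, ex_of]
        · simp [hb, hbj, ex_of]
    have h3 : ∀ i, i ≠ j → ∀ w, ex (some i) (a w) = ex (some i) w := by
      intro i hi
      apply ha
      intro b
      rw [haof]
      by_cases hb : b = none
      · subst hb
        simp [ex_mul, ex_of, Ne.symm hi]
      · by_cases hbj : b = some j
        · subst hbj
          simp [ex_one, ex_of, Ne.symm hi]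
        · simp [hb, hbj]
    have h4 := (ih.comp a).sub ih
    convert h4 using 2 with w
    rw [h1]
    set e0 : ZMod p := ((ex none w : ℤ) : ZMod p) with he0
    have hpr : ∀ (g : Fin (k + 1) → ZMod p), ∏ i, g i = g j * ∏ i ∈ Finset.univ.erase j, g i :=
      fun g => (Finset.mul_prod_erase _ _ (Finset.mem_univ j)).symm
    rw [hpr, hpr, hpr]
    have e1 : ∏ i ∈ Finset.univ.erase j, (if i ∈ insert j S then
        1 - ((ex (some i) w : ℤ) : ZMod p) ^ (p - 1) else ((ex (some i) w : ℤ) : ZMod p) ^ (p - 1)) =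
        ∏ i ∈ Finset.univ.erase j, (if i ∈ S then
        1 - ((ex (some i) w : ℤ) : ZMod p) ^ (p - 1) else ((ex (some i) w : ℤ) : ZMod p) ^ (p - 1)) := by
      refine Finset.prod_congr rfl fun i hi => ?_
      have hij : i ≠ j := (Finset.mem_erase.mp hi).1
      simp [Finset.mem_insert, hij]
    have e2 : ∏ i ∈ Finset.univ.erase j, (if i ∈ S then
        1 - ((ex (some i) (a w) : ℤ) : ZMod p) ^ (p - 1) else
          ((ex (some i) (a w) : ℤ) : ZMod p) ^ (p - 1)) =
        ∏ i ∈ Finset.univ.erase j, (if i ∈ S then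
        1 - ((ex (some i) w : ℤ) : ZMod p) ^ (p - 1) else ((ex (some i) w : ℤ) : ZMod p) ^ (p - 1)) := by
      refine Finset.prod_congr rfl fun i hi => ?_
      have hij : i ≠ j := (Finset.mem_erase.mp hi).1
      rw [h3 i hij]
    rw [e1, e2, if_pos (Finset.mem_insert_self j S), if_neg hj, if_neg hj, h2]
    have e3 : e0 * e0 ^ (p - 1) = e0 := by
      rw [← pow_succ']
      exact pow_eq_self e0 (by omega) (by simp)
    set Q := ∏ i ∈ Finset.univ.erase j, (if i ∈ S then
        1 - ((ex (some i) w : ℤ) : ZMod p) ^ (p - 1) else ((ex (some i) w : ℤ) : ZMod p) ^ (p - 1))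
    calc e0 * ((1 - ((ex (some j) w : ℤ) : ZMod p) ^ (p - 1)) * Q) =
        e0 * Q - e0 * (((ex (some j) w : ℤ) : ZMod p) ^ (p - 1) * Q) := by ring
      _ = (e0 * e0 ^ (p - 1)) * Q - e0 * (((ex (some j) w : ℤ) : ZMod p) ^ (p - 1) * Q) := by
        rw [e3]
      _ = _ := by ring

theorem hughes_of_powFun {p m k : ℕ} [hp : Fact p.Prime] (hm : (k + 1) * (p - 1) + 1 ≤ m)
    (h : PowFun p (Fin m) (fun w => ∏ i, ((ex i w : ℤ) : ZMod p))) :
    ∃ (G : Type) (_ : Group G) (_ : Finite G), IsPGroup p G ∧ (∃ g : G, g ^ p ≠ 1) ∧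
      p ^ k < (hug p G).index := by
  classical
  have hp2 := hp.out.two_le
  have h1 := powFun_subspace (powFun_block hm h) Finset.univ
  simp only [Finset.mem_univ, if_true] at h1
  obtain ⟨R, iR, fR, ρ, χ, hR, hρ, hχ, hpow⟩ := realise h1 (mult_pow (p := p) (I := Fin (k + 1)))
    (exHom p (fun i : Fin (k + 1) => some i))
  refine ⟨R, iR, fR, hR, ⟨ρ (FreeGroup.of none), ?_⟩, ?_⟩
  · rw [Ne, hpow]
    simp only [ex_of]
    simp only [if_true, Int.cast_one, one_mul]
    rw [Finset.prod_eq_one]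
    · exact one_ne_zero
    · intro i _
      simp [show p - 1 ≠ 0 by omega]
  · -- the index
    have hle : hug p R ≤ χ.ker := by
      unfold hug
      rw [closure_le]
      intro x hx
      obtain ⟨w, rfl⟩ := hρ x
      have hx' : ¬ (ρ w) ^ p = 1 := hx
      rw [hpow] at hx'
      have h2 : ∀ i : Fin (k + 1), ((ex (some i) w : ℤ) : ZMod p) = 0 := by
        intro i
        by_contra hc
        apply hx'
        rw [Finset.prod_eq_zero (Finset.mem_univ i), mul_zero]
        rw [ZMod.pow_card_sub_one_eq_one hc, sub_self]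
      show χ (ρ w) = 1
      rw [hχ]
      show Multiplicative.ofAdd _ = 1
      rw [ofAdd_eq_one]
      funext i
      exact h2 i
    have hsurj : Function.Surjective χ := by
      intro v
      let w : FreeGroup (Option (Fin (k + 1))) := FreeGroup.map some
        ((List.ofFn (fun j : Fin (k + 1) => FreeGroup.of j ^ (Multiplicative.toAdd v j).val)).prod)
      refine ⟨ρ w, ?_⟩
      rw [hχ]
      show Multiplicative.ofAdd _ = v
      rw [← ofAdd_toAdd v]
      congr 1
      funext i
      have h3 : ∀ (i : Fin (k + 1)) (u : FreeGroup (Fin (k + 1))),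
          ex (some i) (FreeGroup.map some u) = ex i u := by
        intro i u
        have : (expo (some i)).comp (FreeGroup.map some) = expo i := by
          apply FreeGroup.ext_hom
          intro b
          rw [MonoidHom.comp_apply, FreeGroup.map.of]
          apply Multiplicative.toAdd.injective
          have h4 := ex_of (some i) (some b)
          have h5 := ex_of i b
          unfold ex at h4 h5
          rw [h4, h5]
          simp
        unfold ex
        rw [← this]; rfl
      rw [h3, ex_list_prod]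
      simp
    have hidx : χ.ker.index = p ^ (k + 1) := by
      rw [index_ker, MonoidHom.range_eq_top.mpr hsurj, card_top]
      simp
    have h2 := Nat.le_of_dvd (Nat.pos_of_ne_zero (index_ne_zero_of_finite)) (index_dvd_of_le hle)
    rw [hidx] at h2
    exact lt_of_lt_of_le (Nat.pow_lt_pow_right hp.out.one_lt (Nat.lt_succ_self k)) h2

/-- Every finite `p`-group which is not of exponent `p` has a Hughes subgroup of index at most
`p ^ k`. -/
def HughesBound (p k : ℕ) : Prop :=
  ∀ (G : Type) [Group G] [Finite G], IsPGroup p G → (∃ g : G, g ^ p ≠ 1) →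
    (closure {x : G | x ^ p ≠ 1}).index ≤ p ^ k

theorem main {p : ℕ} (hp : p.Prime) (k N : ℕ) (h1 : p ^ (k * (p - 1) + 1) ≤ N)
    (h2 : N < p ^ ((k + 1) * (p - 1) + 1)) : Pool.CharExpP.Bound p N ↔ HughesBound p k := by
  have : Fact p.Prime := ⟨hp⟩
  have hp2 := hp.two_le
  have hN0 : N ≠ 0 := by
    have := Nat.pos_of_ne_zero (pow_ne_zero (k * (p - 1) + 1) hp.ne_zero)
    omega
  set n := Nat.log p N with hn
  have hn1 : p ^ n ≤ N := Nat.pow_log_le_self p hN0
  have hn2 : N < p ^ (n + 1) := Nat.lt_pow_succ_log_self hp.one_lt N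
  have hn3 : k * (p - 1) + 1 ≤ n := Nat.le_log_of_pow_le hp.one_lt h1
  have hn4 : n < (k + 1) * (p - 1) + 1 := Nat.log_lt_of_lt_pow hN0 h2
  rw [Pool.CharExpP.bound_iff_forces hp hn1 hn2]
  constructor
  · intro hF G _ _ hG hg
    by_contra hc
    push Not at hc
    obtain ⟨m, hm1, hm2⟩ := powFun_of_hughes hG hg hc
    exact not_forces_of_powFun hm2 (Pool.CharExpP.forces_mono hp (by omega) hF)
  · intro hH
    by_contra hc
    obtain ⟨m, hm1, hm2⟩ := powFun_of_not_forces hc
    obtain ⟨hm3, hm4⟩ := modEq_of_powFun hm2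
    -- `m ≥ (k + 1) (p - 1) + 1`
    have hm5 : (k + 1) * (p - 1) + 1 ≤ m := by
      obtain ⟨t, ht⟩ := hm4
      have h3 : k * (p - 1) < (p - 1) * t := by omega
      rw [mul_comm k] at h3
      have h4 : k < t := Nat.lt_of_mul_lt_mul_left h3
      have h5 : (p - 1) * (k + 1) ≤ (p - 1) * t := Nat.mul_le_mul_left _ h4
      rw [mul_comm (k + 1)]
      omega
    obtain ⟨G, iG, fG, hG, hg, hi⟩ := hughes_of_powFun hm5 hm2
    have := hH G hG hg
    exact absurd hi (not_lt_of_ge this)

end Pool.Agent.Lib.H80U
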