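import Pool.Agent.Lib.CharExpP.Small

/-!
# MP_a092f6_al: the reduction theorem

The definitions `Forces` and `Bound` are in `Pool.Agent.Lib.CharExpP.Defs`.
-/

set_option autoImplicit false

namespace Pool.Agent.Results.MP_a092f6_al.Reduction

open Pool.CharExpP

/-- For every prime `p` and `p ^ n ≤ N < p ^ (n + 1)` the following are equivalent: (a) every
finite `p`-group with a subgroup of index `p` and exponent `p` has a characteristic subgroup of
exponent `p` and index at most `N`; (b) every finite `p`-group with `n + 1` independent subgroups
of index `p` and exponent `p` has exponent `p`. -/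
theorem result (p : ℕ) (hp : p.Prime) (n N : ℕ) (h1 : p ^ n ≤ N) (h2 : N < p ^ (n + 1)) :
    Bound p N ↔ Forces p (n + 1) :=
  bound_iff_forces hp h1 h2

end Pool.Agent.Results.MP_a092f6_al.Reduction
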