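import Mathlib

/-!
# Polynomial functions on filtered groups

`SFilt F`: `⁅F i, F j⁆ ≤ F (i + j + 1)`. `Dl f [y_1, ..., y_m]` is the `m`-th deviation of `f`
at `1`. `Deg F f μ`: the deviations of weight `> μ` vanish.
-/

namespace Pool.Agent.Lib.H80U

open Subgroup
open scoped commutatorElement

universe u v

/-- A strong filtration. -/
structure SFilt {G : Type u} [Group G] (F : ℕ → Subgroup G) : Prop where
  anti : ∀ i, F (i + 1) ≤ F i
  comm : ∀ i j, ⁅F i, F j⁆ ≤ F (i + j + 1)

section

variable {G : Type u} [Group G] {A : Type v} [AddCommGroup A]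

theorem SFilt.anti_le {F : ℕ → Subgroup G} (hF : SFilt F) {i j : ℕ} (h : i ≤ j) : F j ≤ F i := by
  induction h with
  | refl => exact le_rfl
  | step _ ih => exact (hF.anti _).trans ih

theorem SFilt.comm_mem {F : ℕ → Subgroup G} (hF : SFilt F) {i j : ℕ} {g x : G} (hg : g ∈ F i)
    (hx : x ∈ F j) : ⁅g, x⁆ ∈ F (i + j + 1) :=
  hF.comm i j (commutator_mem_commutator hg hx)

theorem SFilt.conj_mem {F : ℕ → Subgroup G} (hF : SFilt F) {i : ℕ} {g x : G} (hg : g ∈ F 0)
    (hx : x ∈ F i) : g * x * g⁻¹ ∈ F i := by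
  have h : ⁅g, x⁆ ∈ F (0 + i + 1) := hF.comm_mem hg hx
  rw [zero_add] at h
  have : g * x * g⁻¹ = ⁅g, x⁆ * x := by
    rw [commutatorElement_def]; group
  rw [this]
  exact mul_mem (hF.anti i h) hx

theorem SFilt.conj_mem' {F : ℕ → Subgroup G} (hF : SFilt F) {i : ℕ} {g x : G} (hg : g ∈ F 0)
    (hx : x ∈ F i) : g⁻¹ * x * g ∈ F i := by
  have := hF.conj_mem (inv_mem hg) hx
  rwa [inv_inv] at this

/-- The difference operator. -/
def delta (y : G) (φ : G → A) : G → A := fun g => φ (y * g) - φ g

/-- The deviations. -/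
def Dl : (G → A) → List G → A
  | φ, [] => φ 1
  | φ, y :: ys => Dl (delta y φ) ys

@[simp] theorem Dl_nil (φ : G → A) : Dl φ [] = φ 1 := rfl

@[simp] theorem Dl_cons (φ : G → A) (y : G) (ys : List G) : Dl φ (y :: ys) = Dl (delta y φ) ys :=
  rfl

theorem delta_add (y : G) (φ ψ : G → A) : delta y (φ + ψ) = delta y φ + delta y ψ := by
  funext g
  simp only [delta, Pi.add_apply]
  abel

theorem delta_sub (y : G) (φ ψ : G → A) : delta y (φ - ψ) = delta y φ - delta y ψ := by
  funext g
  simp only [delta, Pi.sub_apply]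
  abel

theorem Dl_add (φ ψ : G → A) (l : List G) : Dl (φ + ψ) l = Dl φ l + Dl ψ l := by
  induction l generalizing φ ψ with
  | nil => rfl
  | cons y ys ih => rw [Dl_cons, delta_add, ih]; rfl

theorem Dl_sub (φ ψ : G → A) (l : List G) : Dl (φ - ψ) l = Dl φ l - Dl ψ l := by
  induction l generalizing φ ψ with
  | nil => rfl
  | cons y ys ih => rw [Dl_cons, delta_sub, ih]; rfl

/-- Iterated differences. -/
def deltas : List G → (G → A) → (G → A)
  | [], φ => φ
  | y :: ys, φ => deltas ys (delta y φ)

theorem Dl_append (φ : G → A) (l l' : List G) : Dl φ (l ++ l') = Dl (deltas l φ) l' := by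
  induction l generalizing φ with
  | nil => rfl
  | cons y ys ih => exact ih _

theorem delta_mul (u v : G) (φ : G → A) :
    delta (u * v) φ = delta u φ + delta v φ + delta v (delta u φ) := by
  funext g
  simp only [delta, Pi.add_apply, mul_assoc]
  abel

theorem Dl_mul (φ : G → A) (l l' : List G) (u v : G) :
    Dl φ (l ++ (u * v) :: l') = Dl φ (l ++ u :: l') + Dl φ (l ++ v :: l') +
      Dl φ (l ++ u :: v :: l') := by
  simp only [Dl_append, Dl_cons, delta_mul, Dl_add]

theorem delta_one (φ : G → A) : delta (1 : G) φ = 0 := by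
  funext g
  simp [delta]

theorem Dl_zero (l : List G) : Dl (0 : G → A) l = 0 := by
  have h := Dl_add (0 : G → A) 0 l
  rw [add_zero] at h
  exact (left_eq_add.mp h)

theorem Dl_one_mem (φ : G → A) (l : List G) (h : (1 : G) ∈ l) : Dl φ l = 0 := by
  induction l generalizing φ with
  | nil => simp at h
  | cons y ys ih =>
    rcases List.mem_cons.mp h with h1 | h1
    · rw [Dl_cons, ← h1, delta_one, Dl_zero]
    · exact ih _ h1

/-- The deviations of weight `> μ` vanish. -/
def Deg (F : ℕ → Subgroup G) (f : G → A) (μ : ℕ) : Prop :=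
  ∀ l : List (ℕ × G), l ≠ [] → (∀ q ∈ l, q.2 ∈ F q.1) → μ < (l.map Prod.fst).sum →
    Dl f (l.map Prod.snd) = 0

/-- The doubled filtration of weight `w`. -/
def dblS (F : ℕ → Subgroup G) (hF : SFilt F) (w k : ℕ) : Subgroup (G × G) where
  carrier := {q | q.1 ∈ F k ∧ q.1⁻¹ * q.2 ∈ F (k + w)}
  one_mem' := by simp [one_mem]
  mul_mem' := by
    rintro ⟨a, b⟩ ⟨c, d⟩ ⟨h1, h2⟩ ⟨h3, h4⟩
    refine ⟨mul_mem h1 h3, ?_⟩
    show (a * c)⁻¹ * (b * d) ∈ F (k + w)
    have : (a * c)⁻¹ * (b * d) = (c⁻¹ * (a⁻¹ * b) * c) * (c⁻¹ * d) := by group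
    rw [this]
    exact mul_mem (hF.conj_mem' (hF.anti_le (Nat.zero_le k) h3) h2) h4
  inv_mem' := by
    rintro ⟨a, b⟩ ⟨h1, h2⟩
    refine ⟨inv_mem h1, ?_⟩
    show (a⁻¹)⁻¹ * b⁻¹ ∈ F (k + w)
    have : (a⁻¹)⁻¹ * b⁻¹ = a * (a⁻¹ * b)⁻¹ * a⁻¹ := by group
    rw [this]
    exact hF.conj_mem (hF.anti_le (Nat.zero_le k) h1) (inv_mem h2)

theorem mem_dblS {F : ℕ → Subgroup G} {hF : SFilt F} {w k : ℕ} {q : G × G} :
    q ∈ dblS F hF w k ↔ q.1 ∈ F k ∧ q.1⁻¹ * q.2 ∈ F (k + w) := Iff.rfl

theorem dblS_sfilt {F : ℕ → Subgroup G} (hF : SFilt F) (w : ℕ) : SFilt (dblS F hF w) where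
  anti := by
    rintro i ⟨a, b⟩ ⟨h1, h2⟩
    refine ⟨hF.anti i h1, ?_⟩
    have e : i + 1 + w = (i + w) + 1 := by omega
    rw [e] at h2
    exact hF.anti _ h2
  comm := by
    intro i j
    rw [commutator_le]
    rintro ⟨a, b⟩ ⟨ha, hb⟩ ⟨c, d⟩ ⟨hc, hd⟩
    simp only at ha hb hc hd
    set a' := a⁻¹ * b with ha'
    set c' := c⁻¹ * d with hc'
    have hbe : b = a * a' := by rw [ha']; group
    have hde : d = c * c' := by rw [hc']; group
    have h0a : a ∈ F 0 := hF.anti_le (Nat.zero_le i) ha
    have h0c : c ∈ F 0 := hF.anti_le (Nat.zero_le j) hc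
    have hac : ⁅a, c⁆ ∈ F (i + j + 1) := hF.comm_mem ha hc
    have h0ac : ⁅a, c⁆ ∈ F 0 := hF.anti_le (Nat.zero_le _) hac
    have e1 : ⁅a', c⁆ ∈ F (i + j + 1 + w) :=
      hF.anti_le (by omega) (hF.comm_mem hb hc)
    have e2 : ⁅a, c'⁆ ∈ F (i + j + 1 + w) :=
      hF.anti_le (by omega) (hF.comm_mem ha hd)
    have e3 : ⁅a', c'⁆ ∈ F (i + j + 1 + w) :=
      hF.anti_le (by omega) (hF.comm_mem hb hd)
    refine ⟨hac, ?_⟩
    show ⁅a, c⁆⁻¹ * ⁅b, d⁆ ∈ F (i + j + 1 + w)
    have key : ⁅a, c⁆⁻¹ * ⁅b, d⁆ =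
        (⁅a, c⁆⁻¹ * (a * (⁅a', c⁆ * (c * ⁅a', c'⁆ * c⁻¹)) * a⁻¹) * ⁅a, c⁆) *
          (c * ⁅a, c'⁆ * c⁻¹) := by
      rw [hbe, hde]
      simp only [commutatorElement_def]
      group
    rw [key]
    refine mul_mem (hF.conj_mem' h0ac (hF.conj_mem h0a (mul_mem e1 (hF.conj_mem h0c e3)))) ?_
    exact hF.conj_mem h0c e2

/-- The difference function on pairs. -/
def pr (φ ψ : G → A) : G × G → A := fun q => ψ q.2 - φ q.1

theorem delta_pr (φ ψ : G → A) (q : G × G) : delta q (pr φ ψ) = pr (delta q.1 φ) (delta q.2 ψ) := by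
  funext r
  simp only [delta, pr, Prod.fst_mul, Prod.snd_mul]
  abel

theorem Dl_pr (φ ψ : G → A) (l : List (G × G)) :
    Dl (pr φ ψ) l = Dl ψ (l.map Prod.snd) - Dl φ (l.map Prod.fst) := by
  induction l generalizing φ ψ with
  | nil => rfl
  | cons q l ih => rw [Dl_cons, delta_pr, ih]; rfl

/-- Replacing the first coordinates by the second ones. -/
theorem Dl_hybrid {F : ℕ → Subgroup G} (hF : SFilt F) {f : G → A} {μ : ℕ} (hd : Deg F f μ) (w : ℕ)
    (l : List (ℕ × (G × G))) : ∀ P : List (ℕ × G), (∀ q ∈ P, q.2 ∈ F q.1) →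
    (∀ q ∈ l, q.2 ∈ dblS F hF w q.1) →
    μ < (P.map Prod.fst).sum + (l.map Prod.fst).sum + w →
    Dl f (P.map Prod.snd ++ l.map (fun q => q.2.2)) =
      Dl f (P.map Prod.snd ++ l.map (fun q => q.2.1)) := by
  induction l with
  | nil => intro P _ _ _; rfl
  | cons r l ih =>
    obtain ⟨v, a, b⟩ := r
    intro P hP hl hμ
    have hr := hl (v, a, b) List.mem_cons_self
    rw [mem_dblS] at hr
    obtain ⟨h1, h2⟩ := hr
    simp only at h1 h2
    have hl' : ∀ q ∈ l, q.2 ∈ dblS F hF w q.1 := fun q hq => hl q (List.mem_cons_of_mem _ hq)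
    simp only [List.map_cons, List.sum_cons] at hμ ⊢
    -- split `b = a * d`
    have hb : b = a * (a⁻¹ * b) := by group
    rw [hb, Dl_mul]
    have hw : ∀ q ∈ l.map (fun q => (q.1, q.2.2)), q.2 ∈ F q.1 := by
      intro q hq
      rw [List.mem_map] at hq
      obtain ⟨⟨v', a', b'⟩, hq1, rfl⟩ := hq
      have h3 := hl' _ hq1
      rw [mem_dblS] at h3
      simp only at h3 ⊢
      have : b' = a' * (a'⁻¹ * b') := by group
      rw [this]
      exact mul_mem h3.1 (hF.anti_le (Nat.le_add_right _ _) h3.2)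
    have z1 : Dl f (P.map Prod.snd ++ (a⁻¹ * b) :: l.map (fun q => q.2.2)) = 0 := by
      have := hd (P ++ (v + w, a⁻¹ * b) :: l.map (fun q => (q.1, q.2.2))) (by simp) (by
        intro q hq
        rw [List.mem_append, List.mem_cons] at hq
        rcases hq with hq | rfl | hq
        · exact hP q hq
        · exact h2
        · exact hw q hq) (by
        simp only [List.map_append, List.map_cons, List.sum_append, List.sum_cons, List.map_map]
        have e : (l.map (Prod.fst ∘ fun q : ℕ × (G × G) => (q.1, q.2.2))) = l.map Prod.fst := by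
          apply List.map_congr_left; intro q _; rfl
        rw [e]
        omega)
      simpa [List.map_append, List.map_map, Function.comp_def] using this
    have z2 : Dl f (P.map Prod.snd ++ a :: (a⁻¹ * b) :: l.map (fun q => q.2.2)) = 0 := by
      have := hd (P ++ (v, a) :: (v + w, a⁻¹ * b) :: l.map (fun q => (q.1, q.2.2))) (by simp) (by
        intro q hq
        rw [List.mem_append, List.mem_cons, List.mem_cons] at hq
        rcases hq with hq | rfl | rfl | hq
        · exact hP q hq
        · exact h1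
        · exact h2
        · exact hw q hq) (by
        simp only [List.map_append, List.map_cons, List.sum_append, List.sum_cons, List.map_map]
        have e : (l.map (Prod.fst ∘ fun q : ℕ × (G × G) => (q.1, q.2.2))) = l.map Prod.fst := by
          apply List.map_congr_left; intro q _; rfl
        rw [e]
        omega)
      simpa [List.map_append, List.map_map, Function.comp_def] using this
    rw [z1, z2, add_zero, add_zero]
    have h4 := ih (P ++ [(v, a)]) (by
      intro q hq
      rw [List.mem_append, List.mem_singleton] at hq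
      rcases hq with hq | rfl
      · exact hP q hq
      · exact h1) hl' (by
      simp only [List.map_append, List.map_cons, List.sum_append, List.sum_cons, List.map_nil,
        List.sum_nil]
      omega)
    simpa [List.map_append, List.append_assoc] using h4

theorem Deg.dbl {F : ℕ → Subgroup G} {hF : SFilt F} {f : G → A} {μ w : ℕ}
    (hd : Deg F f (w + μ)) : Deg (dblS F hF w) (pr f f) μ := by
  intro l _ hl hμ
  rw [Dl_pr]
  have h := Dl_hybrid hF hd w l [] (by simp) hl (by
    simp only [List.map_nil, List.sum_nil]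
    omega)
  simp only [List.map_nil, List.nil_append] at h
  rw [List.map_map, List.map_map]
  have e1 : l.map (Prod.snd ∘ Prod.snd) = l.map (fun q => q.2.2) := rfl
  have e2 : l.map (Prod.fst ∘ Prod.snd) = l.map (fun q => q.2.1) := rfl
  rw [e1, e2, h, sub_self]

end

/-- Alternating sums over the cube. -/
def alt {A : Type v} [AddCommGroup A] : (m : ℕ) → ((Fin m → Bool) → A) → A
  | 0, h => h (fun i => i.elim0)
  | m + 1, h => alt m (fun s => h (Fin.cons true s)) - alt m (fun s => h (Fin.cons false s))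

theorem alt_sub {A : Type v} [AddCommGroup A] (m : ℕ) (h k : (Fin m → Bool) → A) :
    alt m (fun s => h s - k s) = alt m h - alt m k := by
  induction m with
  | zero => rfl
  | succ m ih =>
    simp only [alt]
    rw [ih, ih]
    abel

section

variable {G : Type u} [Group G]

/-- Evaluation of a word, the letters `inl i` with `s i = false` going to `1`. -/
noncomputable def evalB {m : ℕ} {ι : Type} (x : Fin m → G) (y : ι → G) (s : Fin m → Bool) :
    FreeGroup (Fin m ⊕ ι) →* G :=
  FreeGroup.lift (Sum.elim (fun i => if s i then x i else 1) y)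

end

theorem inv (m : ℕ) : ∀ {G : Type u} [Group G] {A : Type v} [AddCommGroup A] {F : ℕ → Subgroup G}
    (_ : SFilt F) (f : G → A) {ι : Type} (w : Fin m → ℕ) (x : Fin m → G)
    (_ : ∀ i, x i ∈ F (w i)) (y : ι → G) (_ : ∀ j, y j ∈ F 0) (_ : Deg F f (∑ i, w i))
    (W V : FreeGroup (Fin m ⊕ ι)) (_ : W ∈ commutator (FreeGroup (Fin m ⊕ ι))),
    alt m (fun s => f (evalB x y s (W * V))) = alt m (fun s => f (evalB x y s V)) := by
  induction m with
  | zero =>
    intro G _ A _ F hF f ι w x _ y hy hd W V hW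
    simp only [alt]
    rw [Fin.sum_univ_zero] at hd
    set s : Fin 0 → Bool := fun i => i.elim0
    have hr : (evalB x y s).range ≤ F 0 := by
      unfold evalB
      apply FreeGroup.range_lift_le
      rintro _ ⟨a, rfl⟩
      rcases a with i | j
      · exact i.elim0
      · exact hy j
    have hV : evalB x y s V ∈ F 0 := hr ⟨V, rfl⟩
    have hW1 : evalB x y s W ∈ F 1 := by
      have h1 : (commutator (FreeGroup (Fin 0 ⊕ ι))).map (evalB x y s) ≤ F 1 := by
        rw [_root_.commutator_def, map_commutator]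
        refine le_trans (commutator_mono (K₁ := F 0) (K₂ := F 0) ?_ ?_) (hF.comm 0 0)
        · rw [← MonoidHom.range_eq_map]; exact hr
        · rw [← MonoidHom.range_eq_map]; exact hr
      exact h1 ⟨W, hW, rfl⟩
    rw [map_mul]
    set a := evalB x y s W
    set b := evalB x y s V
    have d1 := hd [(1, a)] (by simp) (by simpa using hW1) (by simp)
    have d2 := hd [(1, a), (0, b)] (by simp) (by
      intro q hq
      simp only [List.mem_cons, List.not_mem_nil, or_false] at hq
      rcases hq with rfl | rfl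
      · exact hW1
      · exact hV) (by simp)
    simp only [List.map_cons, List.map_nil, Dl_cons, Dl_nil, delta, mul_one] at d1 d2
    rw [d1, sub_zero] at d2
    exact sub_eq_zero.mp d2
  | succ m ih =>
    intro G _ A _ F hF f ι w x hx y hy hd W V hW
    let x' : Fin m → G × G := fun i => (x i.succ, x i.succ)
    let y' : Option ι → G × G := fun o => match o with
      | none => (1, x 0)
      | some j => (y j, y j)
    have hx' : ∀ i, x' i ∈ dblS F hF (w 0) (w i.succ) := by
      intro i
      refine ⟨hx _, ?_⟩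
      show (x i.succ)⁻¹ * x i.succ ∈ _
      rw [inv_mul_cancel]
      exact one_mem _
    have hy' : ∀ j, y' j ∈ dblS F hF (w 0) 0 := by
      intro j
      rcases j with _ | j
      · refine ⟨one_mem _, ?_⟩
        show (1 : G)⁻¹ * x 0 ∈ _
        rw [inv_one, one_mul, zero_add]
        exact hx _
      · refine ⟨hy j, ?_⟩
        show (y j)⁻¹ * y j ∈ _
        rw [inv_mul_cancel]
        exact one_mem _
    let φ : Fin (m + 1) ⊕ ι → Fin m ⊕ Option ι := fun a => match a with
      | Sum.inl i => Fin.cases (motive := fun _ => Fin m ⊕ Option ι) (Sum.inr none)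
          (fun k => Sum.inl k) i
      | Sum.inr j => Sum.inr (some j)
    -- the two coordinates
    have hfst : ∀ (s : Fin m → Bool) (U : FreeGroup (Fin (m + 1) ⊕ ι)),
        (evalB x' y' s (FreeGroup.map φ U)).1 = evalB x y (Fin.cons false s) U := by
      intro s U
      have : (MonoidHom.fst G G).comp ((evalB x' y' s).comp (FreeGroup.map φ)) =
          evalB x y (Fin.cons false s) := by
        apply FreeGroup.ext_hom
        rintro (i | j)
        · refine Fin.cases ?_ (fun k => ?_) i
          · simp [MonoidHom.comp_apply, evalB, φ, y']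
          · by_cases hk : s k <;> simp [MonoidHom.comp_apply, evalB, φ, x', hk]
        · simp [MonoidHom.comp_apply, evalB, φ, y']
      exact DFunLike.congr_fun this U
    have hsnd : ∀ (s : Fin m → Bool) (U : FreeGroup (Fin (m + 1) ⊕ ι)),
        (evalB x' y' s (FreeGroup.map φ U)).2 = evalB x y (Fin.cons true s) U := by
      intro s U
      have : (MonoidHom.snd G G).comp ((evalB x' y' s).comp (FreeGroup.map φ)) =
          evalB x y (Fin.cons true s) := by
        apply FreeGroup.ext_hom
        rintro (i | j)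
        · refine Fin.cases ?_ (fun k => ?_) i
          · simp [MonoidHom.comp_apply, evalB, φ, y']
          · by_cases hk : s k <;> simp [MonoidHom.comp_apply, evalB, φ, x', hk]
        · simp [MonoidHom.comp_apply, evalB, φ, y']
      exact DFunLike.congr_fun this U
    rw [Fin.sum_univ_succ] at hd
    have hres := ih (dblS_sfilt hF (w 0)) (pr f f) (fun i => w i.succ) x' hx' y' hy'
      (Deg.dbl (hF := hF) hd) (FreeGroup.map φ W) (FreeGroup.map φ V) (by
        have h1 : (commutator (FreeGroup (Fin (m + 1) ⊕ ι))).map (FreeGroup.map φ) ≤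
            commutator (FreeGroup (Fin m ⊕ Option ι)) := by
          rw [_root_.commutator_def, map_commutator, _root_.commutator_def]
          exact commutator_mono le_top le_top
        exact h1 ⟨W, hW, rfl⟩)
    have key : ∀ U : FreeGroup (Fin (m + 1) ⊕ ι),
        alt m (fun s => (pr f f) (evalB x' y' s (FreeGroup.map φ U))) =
          alt (m + 1) (fun s => f (evalB x y s U)) := by
      intro U
      simp only [alt, pr, hfst, hsnd]
      rw [alt_sub]
    rw [← map_mul] at hres
    rw [key, key] at hres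
    exact hres

end Pool.Agent.Lib.H80U
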