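import Pool.Agent.Lib.H80U.Poly

/-!
# Power functions on free groups

`PowFun p α φ`: the function `φ` on the free group on `α` is the power map of some finite `p`-group
generated by `α`, all of whose `p`-th powers are in a central subgroup of order `p`.
-/

namespace Pool.Agent.Lib.H80U

open Subgroup
open scoped commutatorElement

universe u v

/-- Power functions. -/
def PowFun (p : ℕ) (α : Type) (φ : FreeGroup α → ZMod p) : Prop :=
  ∃ (G : Type) (_ : Group G) (_ : Finite G) (c : G) (π : FreeGroup α →* G),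
    IsPGroup p G ∧ c ≠ 1 ∧ c ^ p = 1 ∧ (∀ g, Commute c g) ∧ ∀ w, (π w) ^ p = c ^ (φ w).val

theorem pow_congr {G : Type u} [Group G] {p : ℕ} {c : G} (hc : c ^ p = 1) {a b : ℕ}
    (h : (a : ZMod p) = b) : c ^ a = c ^ b := by
  have h1 : a ≡ b [MOD p] := (ZMod.natCast_eq_natCast_iff a b p).mp h
  have h2 : a ≡ b [MOD orderOf c] := h1.of_dvd (orderOf_dvd_of_pow_eq_one hc)
  exact pow_eq_pow_iff_modEq.mpr h2

theorem PowFun.comp {p : ℕ} {α β : Type} {φ : FreeGroup α → ZMod p} (h : PowFun p α φ)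
    (a : FreeGroup β →* FreeGroup α) : PowFun p β (fun w => φ (a w)) := by
  obtain ⟨G, i1, i2, c, π, h1, h2, h3, h4, h5⟩ := h
  exact ⟨G, i1, i2, c, π.comp a, h1, h2, h3, h4, fun w => h5 _⟩

theorem PowFun.zero {p : ℕ} [hp : Fact p.Prime] (α : Type) : PowFun p α (fun _ => 0) := by
  have hne : (Multiplicative.ofAdd (1 : ZMod p)) ≠ 1 := by
    rw [Ne, ofAdd_eq_one]
    exact one_ne_zero
  refine ⟨Multiplicative (ZMod p), inferInstance, inferInstance, Multiplicative.ofAdd 1, 1, ?_, hne,
    ?_, fun g => mul_comm _ _, ?_⟩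
  · refine IsPGroup.of_card (n := 1) ?_
    simp
  · rw [← ofAdd_nsmul]
    simp
  · intro w
    simp

section

variable {G₁ G₂ : Type} [Group G₁] [Group G₂]

/-- The antidiagonal subgroup. -/
def anti (c₁ : G₁) (c₂ : G₂) : Subgroup (G₁ × G₂) := zpowers (c₁, c₂⁻¹)

theorem anti_normal {c₁ : G₁} {c₂ : G₂} (h₁ : ∀ g, Commute c₁ g) (h₂ : ∀ g, Commute c₂ g) :
    (anti c₁ c₂).Normal := by
  refine ⟨?_⟩
  rintro _ ⟨n, rfl⟩ ⟨g, h⟩
  refine ⟨n, ?_⟩
  have e : Commute ((c₁, c₂⁻¹) : G₁ × G₂) (g, h) := by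
    show (c₁, c₂⁻¹) * (g, h) = (g, h) * (c₁, c₂⁻¹)
    rw [Prod.mk_mul_mk, Prod.mk_mul_mk, (h₁ g).eq, ((h₂ h).inv_left).eq]
  have e2 := (e.zpow_left n).eq
  show (c₁, c₂⁻¹) ^ n = (g, h) * (c₁, c₂⁻¹) ^ n * (g, h)⁻¹
  rw [← e2]
  group

theorem anti_ne {p : ℕ} [hp : Fact p.Prime] {c₁ : G₁} {c₂ : G₂} (h1 : c₁ ≠ 1) (h1p : c₁ ^ p = 1)
    (h2 : c₂ ≠ 1) (h2p : c₂ ^ p = 1) : ((c₁, 1) : G₁ × G₂) ∉ anti c₁ c₂ := by
  rintro ⟨n, hn⟩
  simp only [Prod.pow_mk, Prod.mk.injEq] at hn
  obtain ⟨ha, hb⟩ := hn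
  have o2 : orderOf c₂ = p := orderOf_eq_prime h2p h2
  have hd : (p : ℤ) ∣ n := by
    rw [← o2]
    apply orderOf_dvd_iff_zpow_eq_one.mpr
    rw [inv_zpow] at hb
    exact inv_eq_one.mp hb
  obtain ⟨k, rfl⟩ := hd
  apply h1
  have ha' : c₁ ^ ((p : ℤ) * k) = c₁ := ha
  rw [zpow_mul, zpow_natCast, h1p, one_zpow] at ha'
  exact ha'.symm

end

theorem PowFun.add {p : ℕ} [hp : Fact p.Prime] {α : Type} {φ ψ : FreeGroup α → ZMod p}
    (h : PowFun p α φ) (k : PowFun p α ψ) : PowFun p α (fun w => φ w + ψ w) := by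
  obtain ⟨G, i1, i2, c, π, h1, h2, h3, h4, h5⟩ := h
  obtain ⟨K, j1, j2, d, ρ, k1, k2, k3, k4, k5⟩ := k
  have hN : (anti c d).Normal := anti_normal h4 k4
  let q : G × K →* (G × K) ⧸ anti c d := QuotientGroup.mk' _
  have hcd : q (1, d) = q (c, 1) := by
    apply (QuotientGroup.eq (s := anti c d)).mpr
    show (1, d)⁻¹ * (c, 1) ∈ anti c d
    have : ((1, d)⁻¹ * (c, 1) : G × K) = (c, d⁻¹) := by simp
    rw [this]
    exact mem_zpowers _
  have hqp : q (c, 1) ^ p = 1 := by
    rw [← map_pow]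
    have : ((c, 1) : G × K) ^ p = 1 := by
      rw [Prod.pow_mk, h3, one_pow]; rfl
    rw [this, map_one]
  refine ⟨(G × K) ⧸ anti c d, inferInstance, inferInstance, q (c, 1), q.comp (π.prod ρ), ?_, ?_,
    hqp, ?_, ?_⟩
  · have hGK : IsPGroup p (G × K) := by
      rintro ⟨g, k⟩
      obtain ⟨a, ha⟩ := h1 g
      obtain ⟨b, hb⟩ := k1 k
      refine ⟨a + b, ?_⟩
      rw [Prod.pow_mk, pow_add, pow_mul, ha, one_pow, mul_comm (p ^ a), pow_mul, hb, one_pow]
      rfl
    exact hGK.to_quotient _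
  · intro he
    have := (QuotientGroup.eq_one_iff (N := anti c d) ((c, 1) : G × K)).mp he
    exact anti_ne h2 h3 k2 k3 this
  · intro g
    obtain ⟨⟨a, b⟩, rfl⟩ := QuotientGroup.mk'_surjective _ g
    show q (c, 1) * q (a, b) = q (a, b) * q (c, 1)
    rw [← map_mul, ← map_mul]
    congr 1
    rw [Prod.mk_mul_mk, Prod.mk_mul_mk, (h4 a).eq, one_mul, mul_one]
  · intro w
    have e1 : ((q.comp (π.prod ρ)) w) ^ p = q (c ^ (φ w).val, d ^ (ψ w).val) := by
      rw [MonoidHom.comp_apply, ← map_pow, MonoidHom.prod_apply, Prod.pow_mk, h5, k5]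
    have e2 : ((c ^ (φ w).val, d ^ (ψ w).val) : G × K) = (c, 1) ^ (φ w).val * (1, d) ^ (ψ w).val := by
      simp
    rw [e1, e2, map_mul, map_pow, map_pow, hcd, ← pow_add]
    apply pow_congr hqp
    simp

theorem PowFun.smul {p : ℕ} [hp : Fact p.Prime] {α : Type} {φ : FreeGroup α → ZMod p}
    (h : PowFun p α φ) (k : ZMod p) : PowFun p α (fun w => k * φ w) := by
  by_cases hk : k = 0
  · subst hk
    simp only [zero_mul]
    exact PowFun.zero α
  obtain ⟨G, i1, i2, c, π, h1, h2, h3, h4, h5⟩ := h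
  have hcp : (c ^ (k⁻¹).val) ^ p = 1 := by rw [← pow_mul, mul_comm, pow_mul, h3, one_pow]
  refine ⟨G, i1, i2, c ^ (k⁻¹).val, π, h1, ?_, hcp, fun g => (h4 g).pow_left _, ?_⟩
  · intro he
    apply h2
    have : c ^ ((k⁻¹).val * k.val) = c ^ 1 := by
      apply pow_congr h3
      simp [hk]
    rw [pow_one, pow_mul, he, one_pow] at this
    exact this.symm
  · intro w
    rw [h5, ← pow_mul]
    apply pow_congr h3
    simp [hk, ← mul_assoc]

theorem PowFun.sub {p : ℕ} [hp : Fact p.Prime] {α : Type} {φ ψ : FreeGroup α → ZMod p}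
    (h : PowFun p α φ) (k : PowFun p α ψ) : PowFun p α (fun w => φ w - ψ w) := by
  have := h.add (k.smul (-1))
  simpa [sub_eq_add_neg] using this

theorem PowFun.alt {p : ℕ} [hp : Fact p.Prime] {α : Type} (m : ℕ)
    (h : (Fin m → Bool) → FreeGroup α → ZMod p) (hh : ∀ s, PowFun p α (h s)) :
    PowFun p α (fun w => H80U.alt m (fun s => h s w)) := by
  induction m with
  | zero => exact hh _
  | succ m ih =>
    exact (ih (fun s => h (Fin.cons true s)) (fun s => hh _)).sub
      (ih (fun s => h (Fin.cons false s)) (fun s => hh _))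

/-- The exponent sum of the letter `i`. -/
def expo {α : Type} [DecidableEq α] (i : α) : FreeGroup α →* Multiplicative ℤ :=
  FreeGroup.lift (fun j => Multiplicative.ofAdd (if j = i then 1 else 0))

/-- The exponent sum as an integer. -/
def ex {α : Type} [DecidableEq α] (i : α) (w : FreeGroup α) : ℤ := (expo i w).toAdd

theorem ex_mul {α : Type} [DecidableEq α] (i : α) (w w' : FreeGroup α) :
    ex i (w * w') = ex i w + ex i w' := by
  unfold ex
  rw [map_mul]; rfl

theorem ex_one {α : Type} [DecidableEq α] (i : α) : ex i (1 : FreeGroup α) = 0 := by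
  unfold ex
  rw [map_one]; rfl

theorem ex_of {α : Type} [DecidableEq α] (i j : α) :
    ex i (FreeGroup.of j) = if j = i then 1 else 0 := by
  unfold ex expo
  rw [FreeGroup.lift_apply_of]; rfl

theorem ex_pow {α : Type} [DecidableEq α] (i : α) (w : FreeGroup α) (n : ℕ) :
    ex i (w ^ n) = n * ex i w := by
  unfold ex
  rw [map_pow, toAdd_pow]
  simp

section

variable {m : ℕ}

/-- The normal form modulo commutators. -/
def nf (w : FreeGroup (Fin m)) : FreeGroup (Fin m) :=
  (List.ofFn (fun i => FreeGroup.of i ^ ex i w)).prod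

theorem mk_nf (w : FreeGroup (Fin m)) :
    Abelianization.of w = ∏ i, (Abelianization.of (FreeGroup.of i)) ^ ex i w := by
  let ψ : FreeGroup (Fin m) →* Abelianization (FreeGroup (Fin m)) :=
    { toFun := fun w => ∏ i, (Abelianization.of (FreeGroup.of i)) ^ ex i w
      map_one' := by simp [ex_one]
      map_mul' := by
        intro a b
        rw [← Finset.prod_mul_distrib]
        refine Finset.prod_congr rfl fun i _ => ?_
        rw [ex_mul, zpow_add] }
  have : (Abelianization.of : FreeGroup (Fin m) →* _) = ψ := by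
    apply FreeGroup.ext_hom
    intro j
    show _ = ∏ i, (Abelianization.of (FreeGroup.of i)) ^ ex i (FreeGroup.of j)
    simp only [ex_of]
    rw [Finset.prod_eq_single j]
    · simp
    · intro i _ hi
      rw [if_neg (Ne.symm hi), zpow_zero]
    · intro h
      exact absurd (Finset.mem_univ j) h
  exact DFunLike.congr_fun this w

theorem mul_nf_inv_mem (w : FreeGroup (Fin m)) : w * (nf w)⁻¹ ∈ commutator (FreeGroup (Fin m)) := by
  have h1 : Abelianization.of (nf w) = Abelianization.of w := by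
    rw [mk_nf w]
    unfold nf
    rw [map_list_prod, List.map_ofFn, List.prod_ofFn]
    refine Finset.prod_congr rfl fun i _ => ?_
    simp
  have h2 : Abelianization.of (w * (nf w)⁻¹) = 1 := by
    rw [map_mul, map_inv, h1, mul_inv_cancel]
  exact (QuotientGroup.eq_one_iff _).mp h2

end

/-- Evaluation with erased letters. -/
noncomputable def evB {G : Type u} [Group G] {m : ℕ} (y : Fin m → G) (s : Fin m → Bool) :
    FreeGroup (Fin m) →* G :=
  FreeGroup.lift (fun i => if s i then y i else 1)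

theorem alt_Dl {G : Type u} [Group G] {A : Type v} [AddCommGroup A] (m : ℕ) (f : G → A)
    (z : Fin m → G) :
    alt m (fun s => f ((List.ofFn (fun i => if s i then z i else 1)).prod)) =
      Dl f (List.ofFn z) := by
  induction m generalizing f with
  | zero => simp [alt]
  | succ m ih =>
    simp only [alt, List.ofFn_succ, List.prod_cons, Fin.cons_zero, Fin.cons_succ, if_true, Dl_cons]
    rw [← ih, ← alt_sub]
    simp [delta]

theorem alt_evB {G : Type u} [Group G] {A : Type v} [AddCommGroup A] {F : ℕ → Subgroup G}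
    (hF : SFilt F) {m : ℕ} (f : G → A) (v : Fin m → ℕ) (y : Fin m → G) (hy : ∀ i, y i ∈ F (v i))
    (hd : Deg F f (∑ i, v i)) (w : FreeGroup (Fin m)) :
    alt m (fun s => f (evB y s w)) = Dl f (List.ofFn (fun i => y i ^ ex i w)) := by
  let inl : FreeGroup (Fin m) →* FreeGroup (Fin m ⊕ Empty) := FreeGroup.map Sum.inl
  have hev : ∀ s (U : FreeGroup (Fin m)), evalB y (Empty.elim : Empty → G) s (inl U) = evB y s U := by
    intro s U
    have : (evalB y (Empty.elim : Empty → G) s).comp inl = evB y s := by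
      apply FreeGroup.ext_hom
      intro i
      simp [evalB, evB, inl]
    exact DFunLike.congr_fun this U
  have h1 := inv m hF f v y hy (Empty.elim : Empty → G) (fun j => j.elim) hd
    (inl (w * (nf w)⁻¹)) (inl (nf w)) (by
      have h1 : (commutator (FreeGroup (Fin m))).map inl ≤
          commutator (FreeGroup (Fin m ⊕ Empty)) := by
        rw [_root_.commutator_def, map_commutator, _root_.commutator_def]
        exact commutator_mono le_top le_top
      exact h1 ⟨_, mul_nf_inv_mem w, rfl⟩)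
  rw [← map_mul, inv_mul_cancel_right] at h1
  simp only [hev] at h1
  rw [h1, ← alt_Dl]
  congr 1
  funext s
  congr 1
  unfold nf
  rw [map_list_prod, List.map_ofFn]
  congr 2
  funext i
  simp only [Function.comp_apply, map_zpow, evB, FreeGroup.lift_apply_of]
  split_ifs <;> simp

/-- The deviations are additive in a letter. -/
theorem letter_hom {G : Type u} [Group G] {A : Type v} [AddCommGroup A] {F : ℕ → Subgroup G}
    {f : G → A} {μ : ℕ} (hd : Deg F f μ) (P l : List (ℕ × G)) (hP : ∀ q ∈ P, q.2 ∈ F q.1)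
    (hl : ∀ q ∈ l, q.2 ∈ F q.1) (v : ℕ)
    (hμ : μ < (P.map Prod.fst).sum + v + v + (l.map Prod.fst).sum) (g h : G) (hg : g ∈ F v)
    (hh : h ∈ F v) : Dl f (P.map Prod.snd ++ (g * h) :: l.map Prod.snd) =
      Dl f (P.map Prod.snd ++ g :: l.map Prod.snd) + Dl f (P.map Prod.snd ++ h :: l.map Prod.snd) := by
  rw [Dl_mul]
  have := hd (P ++ (v, g) :: (v, h) :: l) (by simp) (by
    intro q hq
    rw [List.mem_append, List.mem_cons, List.mem_cons] at hq
    rcases hq with hq | rfl | rfl | hq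
    · exact hP q hq
    · exact hg
    · exact hh
    · exact hl q hq) (by
    simp only [List.map_append, List.map_cons, List.sum_append, List.sum_cons]
    omega)
  rw [List.map_append, List.map_cons, List.map_cons] at this
  rw [this, add_zero]

theorem letter_zpow {G : Type u} [Group G] {A : Type v} [AddCommGroup A] {F : ℕ → Subgroup G}
    {f : G → A} {μ : ℕ} (hd : Deg F f μ) (P l : List (ℕ × G)) (hP : ∀ q ∈ P, q.2 ∈ F q.1)
    (hl : ∀ q ∈ l, q.2 ∈ F q.1) (v : ℕ)
    (hμ : μ < (P.map Prod.fst).sum + v + v + (l.map Prod.fst).sum) (g : G) (hg : g ∈ F v) (e : ℤ) :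
    Dl f (P.map Prod.snd ++ (g ^ e) :: l.map Prod.snd) =
      e • Dl f (P.map Prod.snd ++ g :: l.map Prod.snd) := by
  let h : F v →* Multiplicative A := MonoidHom.mk' (fun g => Multiplicative.ofAdd
    (Dl f (P.map Prod.snd ++ (g : G) :: l.map Prod.snd))) (by
    intro a b
    rw [← ofAdd_add]
    congr 1
    exact letter_hom hd P l hP hl v hμ a b a.2 b.2)
  have h1 := map_zpow h ⟨g, hg⟩ e
  have h2 := congrArg Multiplicative.toAdd h1
  rw [toAdd_zpow] at h2
  exact h2

theorem Dl_zpows {G : Type u} [Group G] {A : Type v} [AddCommGroup A] {F : ℕ → Subgroup G}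
    {f : G → A} {μ : ℕ} (hd : Deg F f μ) (l : List (ℕ × G × ℤ)) : ∀ (P : List (ℕ × G)),
    (∀ q ∈ P, q.2 ∈ F q.1) → (∀ q ∈ l, q.2.1 ∈ F q.1) → (∀ q ∈ l, 1 ≤ q.1) →
    (μ ≤ (P.map Prod.fst).sum + (l.map Prod.fst).sum) →
    Dl f (P.map Prod.snd ++ l.map (fun q => q.2.1 ^ q.2.2)) =
      (l.map (fun q => q.2.2)).prod • Dl f (P.map Prod.snd ++ l.map (fun q => q.2.1)) := by
  induction l with
  | nil => intro P _ _ _ _; simp
  | cons r l ih =>
    obtain ⟨v, y, e⟩ := r
    intro P hP hl h1 hμ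
    simp only [List.map_cons, List.sum_cons] at hμ
    have hy : y ∈ F v := hl (v, y, e) List.mem_cons_self
    have hv : 1 ≤ v := h1 (v, y, e) List.mem_cons_self
    have hl' : ∀ q ∈ l, q.2.1 ∈ F q.1 := fun q hq => hl q (List.mem_cons_of_mem _ hq)
    have hye : y ^ e ∈ F v := zpow_mem hy e
    have h2 := ih (P ++ [(v, y ^ e)]) (by
      intro q hq
      rw [List.mem_append, List.mem_singleton] at hq
      rcases hq with hq | rfl
      · exact hP q hq
      · exact hye) hl' (fun q hq => h1 q (List.mem_cons_of_mem _ hq)) (by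
      simp only [List.map_append, List.map_cons, List.sum_append, List.sum_cons, List.map_nil,
        List.sum_nil]
      omega)
    simp only [List.map_append, List.map_cons, List.map_nil, List.append_assoc,
      List.singleton_append] at h2
    simp only [List.map_cons, List.prod_cons]
    rw [h2]
    have h3 := letter_zpow hd P (l.map (fun q => (q.1, q.2.1))) hP (by
      intro q hq
      rw [List.mem_map] at hq
      obtain ⟨q', hq', rfl⟩ := hq
      exact hl' q' hq') v (by
      rw [List.map_map]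
      have e : (l.map (Prod.fst ∘ fun q : ℕ × G × ℤ => (q.1, q.2.1))) = l.map Prod.fst := by
        apply List.map_congr_left; intro q _; rfl
      rw [e]
      omega) y hy e
    rw [List.map_map] at h3
    have e2 : (l.map (Prod.snd ∘ fun q : ℕ × G × ℤ => (q.1, q.2.1))) = l.map (fun q => q.2.1) := by
      apply List.map_congr_left; intro q _; rfl
    rw [e2] at h3
    rw [h3, smul_smul, mul_comm]

/-- The power function obtained from a tuple of maximal weight. -/
theorem powFun_of_deg {p : ℕ} [hp : Fact p.Prime] {G : Type} [Group G] [Finite G]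
    (hG : IsPGroup p G) {c : G} (hc : c ≠ 1) (hcp : c ^ p = 1) (hcc : ∀ g, Commute c g)
    (f : G → ZMod p) (hf : ∀ g, g ^ p = c ^ (f g).val) {F : ℕ → Subgroup G} (hF : SFilt F)
    {m : ℕ} (v : Fin m → ℕ) (y : Fin m → G) (hy : ∀ i, y i ∈ F (v i)) (hv : ∀ i, 1 ≤ v i)
    (hd : Deg F f (∑ i, v i)) (hD : Dl f (List.ofFn y) ≠ 0) :
    PowFun p (Fin m) (fun w => ∏ i, ((ex i w : ℤ) : ZMod p)) := by
  have h1 : PowFun p (Fin m) (fun w => alt m (fun s => f (evB y s w))) :=
    PowFun.alt m (fun s w => f (evB y s w))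
      (fun s => ⟨G, inferInstance, inferInstance, c, evB y s, hG, hc, hcp, hcc, fun w => hf _⟩)
  have h2 := h1.smul (Dl f (List.ofFn y))⁻¹
  convert h2 using 2 with w
  rw [alt_evB hF f v y hy hd w]
  have h3 := Dl_zpows hd (List.ofFn (fun i => (v i, y i, ex i w))) [] (by simp) (by
    intro q hq
    rw [List.mem_ofFn] at hq
    obtain ⟨i, rfl⟩ := hq
    exact hy i) (by
    intro q hq
    rw [List.mem_ofFn] at hq
    obtain ⟨i, rfl⟩ := hq
    exact hv i) (by
    simp [List.map_ofFn, Function.comp_def, List.sum_ofFn])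
  simp only [List.map_nil, List.nil_append, List.map_ofFn, Function.comp_def, List.prod_ofFn] at h3
  rw [h3, zsmul_eq_mul, mul_comm, mul_assoc, mul_inv_cancel₀ hD, mul_one]
  push_cast
  rfl

/-- The degree of a multilinear power function is `1` modulo `p - 1`. -/
theorem modEq_of_powFun {p : ℕ} [hp : Fact p.Prime] {m : ℕ}
    (h : PowFun p (Fin m) (fun w => ∏ i, ((ex i w : ℤ) : ZMod p))) : 1 ≤ m ∧ (p - 1) ∣ (m - 1) := by
  obtain ⟨G, i1, i2, c, π, h1, h2, h3, h4, h5⟩ := h
  have hm : 1 ≤ m := by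
    by_contra hm
    have hm0 : m = 0 := by omega
    subst hm0
    have := h5 1
    rw [map_one, one_pow] at this
    simp only [Finset.univ_eq_empty, Finset.prod_empty] at this
    apply h2
    have e : (1 : ZMod p).val = 1 := by
      have : Fact (1 < p) := ⟨hp.out.one_lt⟩
      exact ZMod.val_one p
    rw [e, pow_one] at this
    exact this.symm
  refine ⟨hm, ?_⟩
  -- the word
  set w : FreeGroup (Fin m) := (List.ofFn (fun i : Fin m => FreeGroup.of i)).prod with hw
  have hex : ∀ i, ex i w = 1 := by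
    intro i
    rw [hw]
    unfold ex
    rw [map_list_prod, List.map_ofFn, List.prod_ofFn, toAdd_prod]
    simp only [Function.comp_apply, expo, FreeGroup.lift_apply_of, toAdd_ofAdd]
    simp
  have key : ∀ a : ℕ, (a : ZMod p) ^ m = a := by
    intro a
    have e1 := h5 (w ^ a)
    have e2 := h5 w
    simp only [ex_pow, hex] at e1 e2
    rw [map_pow, ← pow_mul, mul_comm, pow_mul, e2, ← pow_mul] at e1
    have o : orderOf c = p := orderOf_eq_prime h3 h2
    have e3 := (pow_eq_pow_iff_modEq).mp e1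
    rw [o] at e3
    have e4 := (ZMod.natCast_eq_natCast_iff _ _ p).mpr e3
    simpa using e4.symm
  -- a primitive root
  obtain ⟨g, hg⟩ := IsCyclic.exists_generator (α := (ZMod p)ˣ)
  have hgo : orderOf g = p - 1 := by
    rw [orderOf_eq_card_of_forall_mem_zpowers hg, Nat.card_eq_fintype_card, ZMod.card_units]
  rw [← hgo]
  apply orderOf_dvd_of_pow_eq_one
  have h6 := key (g : ZMod p).val
  rw [ZMod.natCast_zmod_val] at h6
  have h7 : (g : ZMod p) ^ m = (g : ZMod p) ^ (m - 1) * g := by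
    rw [← pow_succ]; congr 1; omega
  rw [h7] at h6
  have h8 : (g : ZMod p) ≠ 0 := g.ne_zero
  have h9 : (g : ZMod p) ^ (m - 1) = 1 := by
    have := mul_right_cancel₀ h8 (h6.trans (one_mul _).symm)
    exact this
  ext
  push_cast
  exact h9

end Pool.Agent.Lib.H80U
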