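import Pool.Agent.Lib.H80U.Count

/-!
# Tuples of maximal weight exist; reduction to a central subgroup of order `p`
-/

namespace Pool.Agent.Lib.H80U

open Subgroup
open scoped commutatorElement

universe u v

section nil

variable {p : ℕ} {G : Type} [Group G]

/-- The deviations of large order vanish. -/
def NilF (φ : G → ZMod p) : Prop := ∃ k, ∀ l : List G, k ≤ l.length → Dl φ l = 0

/-- The subgroup of these functions. -/
def nilSub (p : ℕ) (G : Type) [Group G] : AddSubgroup (G → ZMod p) where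
  carrier := {φ | NilF φ}
  zero_mem' := ⟨0, fun l _ => Dl_zero l⟩
  add_mem' := by
    rintro φ ψ ⟨a, ha⟩ ⟨b, hb⟩
    refine ⟨max a b, fun l hl => ?_⟩
    rw [Dl_add, ha l (le_trans (le_max_left _ _) hl), hb l (le_trans (le_max_right _ _) hl),
      add_zero]
  neg_mem' := by
    rintro φ ⟨a, ha⟩
    refine ⟨a, fun l hl => ?_⟩
    have h := Dl_sub (0 : G → ZMod p) φ l
    rw [zero_sub, Dl_zero, ha l hl, sub_zero] at h
    exact h

theorem nilF_delta {φ : G → ZMod p} (h : NilF φ) (y : G) : NilF (delta y φ) := by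
  obtain ⟨k, hk⟩ := h
  refine ⟨k, fun l hl => ?_⟩
  have := hk (y :: l) (by simp; omega)
  exact this

/-- Translation. -/
def tr (p : ℕ) (y : G) : (G → ZMod p) →+ (G → ZMod p) where
  toFun φ := fun g => φ (y⁻¹ * g)
  map_zero' := rfl
  map_add' _ _ := rfl

theorem tr_eq (y : G) (φ : G → ZMod p) : tr p y φ = φ + delta y⁻¹ φ := by
  funext g
  simp [tr, delta]

theorem tr_mem (y : G) : nilSub p G ≤ (nilSub p G).comap (tr p y) := by
  intro φ hφ
  show tr p y φ ∈ nilSub p G
  rw [tr_eq]
  exact add_mem hφ (show NilF _ from nilF_delta (show NilF φ from hφ) _)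

/-- The action on the quotient. -/
@[instance_reducible] def nilAct (p : ℕ) (G : Type) [Group G] :
    MulAction G ((G → ZMod p) ⧸ nilSub p G) where
  smul y := QuotientAddGroup.map _ _ (tr p y) (tr_mem y)
  one_smul q := by
    induction q using QuotientAddGroup.induction_on with
    | H φ =>
      show QuotientAddGroup.map _ _ (tr p 1) (tr_mem 1) (φ : (G → ZMod p) ⧸ nilSub p G) = φ
      rw [QuotientAddGroup.map_mk]
      congr 1
      funext g
      simp [tr]
  mul_smul x y q := by
    induction q using QuotientAddGroup.induction_on with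
    | H φ =>
      show QuotientAddGroup.map _ _ (tr p (x * y)) (tr_mem _) (φ : (G → ZMod p) ⧸ nilSub p G) =
        QuotientAddGroup.map _ _ (tr p x) (tr_mem _)
          (QuotientAddGroup.map _ _ (tr p y) (tr_mem _) (φ : (G → ZMod p) ⧸ nilSub p G))
      rw [QuotientAddGroup.map_mk, QuotientAddGroup.map_mk, QuotientAddGroup.map_mk]
      congr 1
      funext g
      simp [tr, mul_assoc]

theorem nilF_all [hp : Fact p.Prime] [Finite G] (hG : IsPGroup p G) (φ : G → ZMod p) : NilF φ := by
  classical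
  by_contra hcon
  have hU : nilSub p G ≠ ⊤ := by
    intro h
    apply hcon
    have : φ ∈ nilSub p G := by rw [h]; exact AddSubgroup.mem_top _
    exact (show NilF φ from this)
  let Q := (G → ZMod p) ⧸ nilSub p G
  have : Finite Q := inferInstance
  have hpQ : p ∣ Nat.card Q := by
    have hnt : Nat.card Q ≠ 1 := by
      intro h
      apply hU
      exact AddSubgroup.index_eq_one.mp h
    obtain ⟨r, hr, hrd⟩ := Nat.exists_prime_and_dvd hnt
    have : Fact r.Prime := ⟨hr⟩
    obtain ⟨x, hx⟩ := exists_prime_addOrderOf_dvd_card' r hrd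
    have hpx : p • x = 0 := by
      induction x using QuotientAddGroup.induction_on with
      | H ψ =>
        have : p • ψ = 0 := by
          funext g
          simp
        have h2 : p • (ψ : Q) = ((p • ψ : G → ZMod p) : Q) := rfl
        rw [h2, this]; rfl
    have h3 : r ∣ p := by
      rw [← hx]
      exact addOrderOf_dvd_of_nsmul_eq_zero hpx
    rw [(Nat.prime_dvd_prime_iff_eq hr hp.out).mp h3] at hrd
    exact hrd
  let act : MulAction G Q := nilAct p G
  have h0 : (0 : Q) ∈ MulAction.fixedPoints G Q := by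
    intro y
    show QuotientAddGroup.map _ _ (tr p y) (tr_mem y) (0 : Q) = 0
    exact map_zero _
  obtain ⟨b, hb, hb0⟩ := hG.exists_fixed_point_of_prime_dvd_card_of_fixed_point Q hpQ h0
  obtain ⟨ψ, rfl⟩ := QuotientAddGroup.mk_surjective b
  apply hb0
  symm
  rw [QuotientAddGroup.eq_zero_iff]
  -- all differences are nilpotent
  have h1 : ∀ y : G, NilF (delta y ψ) := by
    intro y
    have h2 : QuotientAddGroup.map _ _ (tr p y⁻¹) (tr_mem y⁻¹) (ψ : Q) = ψ := hb y⁻¹
    rw [QuotientAddGroup.map_mk, tr_eq, inv_inv] at h2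
    have h3 : ((ψ + delta y ψ : G → ZMod p) : Q) = (ψ : Q) + ((delta y ψ : G → ZMod p) : Q) := rfl
    rw [h3] at h2
    have h4 : ((delta y ψ : G → ZMod p) : Q) = 0 := by
      have := add_eq_left.mp h2
      exact this
    exact (show NilF _ from (QuotientAddGroup.eq_zero_iff _).mp h4)
  choose k hk using h1
  have : Fintype G := Fintype.ofFinite G
  refine ⟨(Finset.univ.sup k) + 1, ?_⟩
  intro l hl
  rcases l with _ | ⟨y, l⟩
  · simp at hl
  · rw [Dl_cons]
    apply hk y l
    have h5 : k y ≤ Finset.univ.sup k := Finset.le_sup (Finset.mem_univ y)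
    simp only [List.length_cons] at hl
    omega

end nil

theorem sum_le_mul {l : List ℕ} {N : ℕ} (h : ∀ a ∈ l, a ≤ N) : l.sum ≤ l.length * N := by
  have := List.sum_le_card_nsmul l N h
  simpa using this

/-- A tuple of maximal weight. -/
theorem exists_max {p : ℕ} [hp : Fact p.Prime] {G : Type} [Group G] [Finite G] (hG : IsPGroup p G)
    (f : G → ZMod p) (hf1 : f 1 = 0) (hne : ∃ g, f g ≠ 0) {F : ℕ → Subgroup G} (hF : SFilt F)
    (h1 : F 1 = ⊤) (hN : ∃ N, F N = ⊥) :
    ∃ T : List (ℕ × G), T ≠ [] ∧ (∀ q ∈ T, q.2 ∈ F q.1) ∧ (∀ q ∈ T, 1 ≤ q.1) ∧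
      Dl f (T.map Prod.snd) ≠ 0 ∧ Deg F f (T.map Prod.fst).sum := by
  obtain ⟨g, hg⟩ := hne
  obtain ⟨N, hN⟩ := hN
  obtain ⟨k, hk⟩ := nilF_all hG f
  let Sg : Set ℕ := {s | ∃ T : List (ℕ × G), T ≠ [] ∧ (∀ q ∈ T, q.2 ∈ F q.1) ∧
    Dl f (T.map Prod.snd) ≠ 0 ∧ s = (T.map Prod.fst).sum}
  have hnonempty : Sg.Nonempty := by
    refine ⟨1, [(1, g)], by simp, ?_, ?_, by simp⟩
    · intro q hq
      rw [List.mem_singleton] at hq
      subst hq
      rw [h1]; exact mem_top _
    · simpa [delta, hf1] using hg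
  have hbdd : BddAbove Sg := by
    refine ⟨k * N, ?_⟩
    rintro s ⟨T, _, hT2, hT3, rfl⟩
    have hlen : T.length ≤ k := by
      by_contra hc
      exact hT3 (hk _ (by rw [List.length_map]; omega))
    have hw : ∀ a ∈ T.map Prod.fst, a ≤ N := by
      intro a ha
      rw [List.mem_map] at ha
      obtain ⟨q, hq, rfl⟩ := ha
      by_contra hc
      have h3 : q.2 ∈ F N := hF.anti_le (by omega) (hT2 q hq)
      rw [hN, mem_bot] at h3
      apply hT3
      apply Dl_one_mem
      rw [← h3]
      exact List.mem_map_of_mem hq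
    have := sum_le_mul hw
    rw [List.length_map] at this
    exact this.trans (Nat.mul_le_mul_right _ hlen)
  obtain ⟨T, hT1, hT2, hT3, hT4⟩ := Nat.sSup_mem hnonempty hbdd
  have hmax : ∀ s ∈ Sg, s ≤ (T.map Prod.fst).sum := by
    intro s hs
    rw [← hT4]
    exact le_csSup hbdd hs
  refine ⟨T, hT1, hT2, ?_, hT3, ?_⟩
  · intro q hq
    by_contra hc
    have hq0 : q.1 = 0 := by omega
    obtain ⟨B, C, rfl⟩ := List.append_of_mem hq
    have := hmax ((B ++ (1, q.2) :: C).map Prod.fst).sum ⟨B ++ (1, q.2) :: C, by simp, by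
      intro r hr
      rw [List.mem_append, List.mem_cons] at hr
      rcases hr with hr | rfl | hr
      · exact hT2 r (List.mem_append_left _ hr)
      · rw [h1]; exact mem_top _
      · exact hT2 r (List.mem_append_right _ (List.mem_cons_of_mem _ hr)), by
      simpa [List.map_append] using hT3, rfl⟩
    simp only [List.map_append, List.map_cons, List.sum_append, List.sum_cons] at this
    omega
  · intro l hl1 hl2 hl3
    by_contra hc
    have := hmax _ ⟨l, hl1, hl2, hc, rfl⟩
    omega

theorem ofFn_get_map {α β : Type*} (T : List α) (h : α → β) :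
    List.ofFn (fun i : Fin T.length => h (T.get i)) = T.map h := by
  have h1 : List.ofFn (fun i : Fin T.length => h (T.get i)) =
      (List.ofFn (fun i : Fin T.length => T.get i)).map h := by
    rw [List.map_ofFn]; rfl
  rw [h1, List.ofFn_get]

/-- The power function obtained from a tuple of maximal weight. -/
theorem powFun_of_tuple {p : ℕ} [hp : Fact p.Prime] {G : Type} [Group G] [Finite G]
    (hG : IsPGroup p G) {c : G} (hc : c ≠ 1) (hcp : c ^ p = 1) (hcc : ∀ g, Commute c g)
    (f : G → ZMod p) (hf : ∀ g, g ^ p = c ^ (f g).val) {F : ℕ → Subgroup G} (hF : SFilt F)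
    (T : List (ℕ × G)) (hT2 : ∀ q ∈ T, q.2 ∈ F q.1) (hT3 : ∀ q ∈ T, 1 ≤ q.1)
    (hD : Dl f (T.map Prod.snd) ≠ 0) (hd : Deg F f (T.map Prod.fst).sum) :
    PowFun p (Fin T.length) (fun w => ∏ i, ((ex i w : ℤ) : ZMod p)) := by
  have e1 := ofFn_get_map T (Prod.snd : ℕ × G → G)
  have e2 := ofFn_get_map T (Prod.fst : ℕ × G → ℕ)
  apply powFun_of_deg hG hc hcp hcc f hf hF (fun i => (T.get i).1) (fun i => (T.get i).2)
  · intro i
    exact hT2 _ (List.get_mem T i)
  · intro i
    exact hT3 _ (List.get_mem T i)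
  · have : ∑ i : Fin T.length, (T.get i).1 = (T.map Prod.fst).sum := by
      rw [← e2, List.sum_ofFn]
    rw [this]
    exact hd
  · rw [e1]
    exact hD

/-- Reduction to `p`-th powers in a central subgroup of order `p`. -/
theorem central_quotient {p : ℕ} [hp : Fact p.Prime] {G : Type} [Group G] [Finite G]
    (hG : IsPGroup p G) (hne : ∃ g : G, g ^ p ≠ 1) :
    ∃ N : Subgroup G, ∃ _ : N.Normal, N ≤ normalClosure (Set.range (fun g : G => g ^ p)) ∧
      ∃ c : G ⧸ N, c ≠ 1 ∧ c ^ p = 1 ∧ (∀ q, Commute c q) ∧ (∀ q : G ⧸ N, q ^ p ∈ zpowers c) ∧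
      ∃ q : G ⧸ N, q ^ p ≠ 1 := by
  classical
  set P := normalClosure (Set.range (fun g : G => g ^ p)) with hP
  have hPn : P.Normal := normalClosure_normal
  have hgP : ∀ g : G, g ^ p ∈ P := fun g => subset_normalClosure ⟨g, rfl⟩
  have hPbot : P ≠ ⊥ := by
    obtain ⟨g, hg⟩ := hne
    intro h
    have := hgP g
    rw [h, mem_bot] at this
    exact hg this
  obtain ⟨N, ⟨hNn, hNP⟩, hNmax⟩ := (Set.toFinite {K : Subgroup G | K.Normal ∧ K < P}).exists_maximal
    ⟨⊥, inferInstance, bot_lt_iff_ne_bot.mpr hPbot⟩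
  have hmax : ∀ K : Subgroup G, K.Normal → N ≤ K → K ≤ P → K = N ∨ K = P := by
    intro K hK h1 h2
    rcases eq_or_lt_of_le h2 with h | h
    · exact Or.inr h
    · exact Or.inl (le_antisymm (hNmax ⟨hK, h⟩ h1) h1)
  refine ⟨N, hNn, hNP.le, ?_⟩
  let mk : G →* G ⧸ N := QuotientGroup.mk' N
  have hmk : Function.Surjective mk := QuotientGroup.mk'_surjective N
  have hQ : IsPGroup p (G ⧸ N) := hG.to_quotient N
  -- `[P, G] ≤ N`
  have hcomm : ⁅P, (⊤ : Subgroup G)⁆ ≤ N := by
    rcases hmax (⁅P, (⊤ : Subgroup G)⁆ ⊔ N) inferInstance le_sup_right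
      (sup_le (commutator_le_left _ _) hNP.le) with h | h
    · rw [← h]; exact le_sup_left
    · exfalso
      -- then the image of `P` is in all terms of the lower central series
      have h1 : ∀ n, P.map mk ≤ (⊤ : Subgroup (G ⧸ N)).lowerCentralSeries n := by
        intro n
        induction n with
        | zero => exact le_top
        | succ n ih =>
          have h2 : P.map mk ≤ ⁅P.map mk, (⊤ : Subgroup (G ⧸ N))⁆ := by
            conv_lhs => rw [← h]
            rw [Subgroup.map_sup, map_commutator]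
            have h3 : N.map mk = ⊥ := by
              rw [eq_bot_iff, map_le_iff_le_comap, MonoidHom.comap_bot]
              exact (QuotientGroup.ker_mk' N).ge
            rw [h3, sup_bot_eq]
            exact commutator_mono le_rfl le_top
          refine h2.trans ?_
          rw [Subgroup.lowerCentralSeries_succ]
          exact commutator_mono ih le_rfl
      have hnil : Group.IsNilpotent (G ⧸ N) := hQ.isNilpotent
      obtain ⟨n, hn⟩ := Subgroup.nilpotent_iff_lowerCentralSeries.mp hnil
      have h4 := h1 n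
      rw [hn] at h4
      have h5 : P ≤ N := by
        rw [map_le_iff_le_comap, MonoidHom.comap_bot, QuotientGroup.ker_mk'] at h4
        exact h4
      exact absurd hNP (not_lt_of_ge h5)
  have hcent : ∀ z ∈ P, ∀ q : G ⧸ N, Commute (mk z) q := by
    intro z hz q
    obtain ⟨g, rfl⟩ := hmk q
    have h1 : ⁅z, g⁆ ∈ N := hcomm (commutator_mem_commutator hz (mem_top g))
    have h2 : ⁅mk z, mk g⁆ = 1 := by
      rw [← map_commutatorElement]
      exact (QuotientGroup.eq_one_iff _).mpr h1
    exact commutatorElement_eq_one_iff_commute.mp h2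
  -- an element of order `p`
  obtain ⟨g0, hg0⟩ : ∃ g : G, (mk g) ^ p ≠ 1 := by
    by_contra hc
    push Not at hc
    have h1 : P ≤ N := by
      rw [hP]
      apply normalClosure_le_normal
      rintro _ ⟨g, rfl⟩
      have := hc g
      rw [← map_pow] at this
      exact (QuotientGroup.eq_one_iff _).mp this
    exact absurd hNP (not_lt_of_ge h1)
  obtain ⟨c, hcP, hco⟩ : ∃ c : G ⧸ N, c ∈ P.map mk ∧ orderOf c = p := by
    have hnt : Nontrivial (P.map mk) := by
      refine ⟨⟨⟨(mk g0) ^ p, ?_⟩, 1, ?_⟩⟩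
      · rw [← map_pow]
        exact mem_map_of_mem mk (hgP g0)
      · intro h
        exact hg0 (congrArg Subtype.val h)
    have hPp : IsPGroup p (P.map mk) := hQ.to_subgroup _
    obtain ⟨k, hk0, hk⟩ := (IsPGroup.nontrivial_iff_card hPp).mp hnt
    obtain ⟨x, hx⟩ := exists_prime_orderOf_dvd_card' (G := P.map mk) p (by
      rw [hk]; exact dvd_pow_self p hk0.ne')
    refine ⟨x, x.2, ?_⟩
    rw [← hx]
    exact orderOf_coe x
  have hccen : ∀ q, Commute c q := by
    obtain ⟨z, hz, rfl⟩ := hcP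
    exact hcent z hz
  have hc1 : c ≠ 1 := by
    rintro rfl
    rw [orderOf_one] at hco
    exact hp.out.one_lt.ne hco
  have hzn : (zpowers c).Normal := by
    refine ⟨?_⟩
    rintro _ ⟨n, rfl⟩ g
    refine ⟨n, ?_⟩
    have e2 := ((hccen g).zpow_left n).eq
    show c ^ n = g * c ^ n * g⁻¹
    rw [← e2]
    group
  have hK : (zpowers c).comap mk = P := by
    have h1 : N ≤ (zpowers c).comap mk := by
      intro n hn
      have : mk n = 1 := (QuotientGroup.eq_one_iff _).mpr hn
      show mk n ∈ zpowers c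
      rw [this]; exact one_mem _
    have h2 : (zpowers c).comap mk ≤ P := by
      have h3 : zpowers c ≤ P.map mk := by
        rw [zpowers_le]; exact hcP
      refine (comap_mono h3).trans ?_
      rw [comap_map_eq, QuotientGroup.ker_mk', sup_eq_left.mpr hNP.le]
    rcases hmax _ (hzn.comap mk) h1 h2 with h | h
    · exfalso
      obtain ⟨z, hz, rfl⟩ := hcP
      have h3 : z ∈ (zpowers (mk z)).comap mk := mem_zpowers _
      rw [h] at h3
      exact hc1 ((QuotientGroup.eq_one_iff _).mpr h3)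
    · exact h
  refine ⟨c, hc1, by rw [← hco]; exact pow_orderOf_eq_one c, hccen, ?_, ⟨mk g0, hg0⟩⟩
  intro q
  obtain ⟨g, rfl⟩ := hmk q
  have h1 : g ^ p ∈ (zpowers c).comap mk := by rw [hK]; exact hgP g
  have h2 : mk (g ^ p) ∈ zpowers c := h1
  rwa [map_pow] at h2

/-- The exponent function. -/
theorem exists_expFun {p : ℕ} [hp : Fact p.Prime] {G : Type} [Group G] {c : G} (hc : c ≠ 1)
    (hcp : c ^ p = 1) (h : ∀ q : G, q ^ p ∈ zpowers c) :
    ∃ f : G → ZMod p, (∀ g, g ^ p = c ^ (f g).val) ∧ ∀ g, f g = 0 ↔ g ^ p = 1 := by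
  have h1 : ∀ g : G, ∃ n : ZMod p, g ^ p = c ^ n.val := by
    intro g
    obtain ⟨k, hk⟩ := h g
    refine ⟨(k : ZMod p), ?_⟩
    rw [← hk]
    show c ^ k = c ^ ((k : ZMod p)).val
    have h2 : c ^ (k % p) = c ^ k := by
      conv_rhs => rw [← Int.emod_add_mul_ediv k p]
      rw [zpow_add, zpow_mul, zpow_natCast, hcp, one_zpow, mul_one]
    rw [← h2, ← ZMod.val_intCast, zpow_natCast]
  choose f hf using h1
  refine ⟨f, hf, fun g => ?_⟩
  constructor
  · intro h0
    rw [hf, h0, ZMod.val_zero, pow_zero]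
  · intro h0
    rw [hf] at h0
    have h2 := orderOf_dvd_of_pow_eq_one h0
    rw [orderOf_eq_prime hcp hc] at h2
    have h3 := ZMod.val_lt (f g)
    have h4 : (f g).val = 0 := Nat.eq_zero_of_dvd_of_lt h2 h3
    exact (ZMod.val_eq_zero _).mp h4

/-- The doubled lower central series. -/
def lcs2 (G : Type) [Group G] (k : ℕ) : Subgroup G := (⊤ : Subgroup G).lowerCentralSeries (k / 2)

theorem lcs2_sfilt (G : Type) [Group G] : SFilt (lcs2 G) where
  anti i := Subgroup.lowerCentralSeries_antitone (⊤ : Subgroup G) (by omega)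
  comm i j := (Pool.CharExpP.lcs_comm_le (i / 2) (j / 2)).trans
    (Subgroup.lowerCentralSeries_antitone (⊤ : Subgroup G) (by omega))

theorem lcs2_one (G : Type) [Group G] : lcs2 G 1 = ⊤ := rfl

theorem lcs2_bot {p : ℕ} [Fact p.Prime] {G : Type} [Group G] [Finite G] (hG : IsPGroup p G) :
    ∃ N, lcs2 G N = ⊥ := by
  have hnil : Group.IsNilpotent G := hG.isNilpotent
  obtain ⟨n, hn⟩ := Subgroup.nilpotent_iff_lowerCentralSeries.mp hnil
  refine ⟨2 * n, ?_⟩
  unfold lcs2
  rw [Nat.mul_div_cancel_left n (by norm_num)]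
  exact hn

end Pool.Agent.Lib.H80U
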